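import Pool.Agent.H90.CayleyGroup

/-!
Analytic estimates for the second moment bound.
-/

open Finset

namespace Pool.Agent.H90.Cayley

lemma exp_mul_pow_le (k : ℕ) : Real.exp 1 * (k:ℝ) ^ (k+1) ≤ ((k:ℝ) + 1) ^ (k+1) := by
  have h1 : 1 - 1 / ((k:ℝ) + 1) ≤ Real.exp (-(1 / ((k:ℝ) + 1))) := by
    have := Real.add_one_le_exp (-(1 / ((k:ℝ) + 1)))
    linarith
  have hk : (0:ℝ) < (k:ℝ) + 1 := by positivity
  have h2 : 1 - 1 / ((k:ℝ) + 1) = (k:ℝ) / ((k:ℝ) + 1) := by field_simp; ring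
  rw [h2] at h1
  have h3 : ((k:ℝ) / ((k:ℝ) + 1)) ^ (k+1) ≤ (Real.exp (-(1 / ((k:ℝ) + 1)))) ^ (k+1) :=
    pow_le_pow_left₀ (by positivity) h1 _
  have h4 : (Real.exp (-(1 / ((k:ℝ) + 1)))) ^ (k+1) = (Real.exp 1)⁻¹ := by
    rw [← Real.exp_nat_mul, ← Real.exp_neg]
    congr 1
    push_cast
    field_simp
  rw [h4, div_pow, div_le_iff₀ (by positivity)] at h3
  have he : 0 < Real.exp 1 := Real.exp_pos 1
  calc Real.exp 1 * (k:ℝ) ^ (k+1) ≤ Real.exp 1 * ((Real.exp 1)⁻¹ * ((k:ℝ) + 1) ^ (k+1)) := by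
        gcongr
    _ = _ := by field_simp

lemma factorial_mul_exp_le (k : ℕ) (hk : 1 ≤ k) :
    (k.factorial : ℝ) * Real.exp 1 ^ k ≤ Real.exp 1 * k * (k:ℝ) ^ k := by
  induction k, hk using Nat.le_induction with
  | base => simp
  | succ k hk ih =>
    have h := exp_mul_pow_le k
    have he : 0 < Real.exp 1 := Real.exp_pos 1
    rw [Nat.factorial_succ, pow_succ]
    push_cast
    calc ((k:ℝ) + 1) * (k.factorial : ℝ) * (Real.exp 1 ^ k * Real.exp 1)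
        = ((k:ℝ) + 1) * Real.exp 1 * ((k.factorial : ℝ) * Real.exp 1 ^ k) := by ring
      _ ≤ ((k:ℝ) + 1) * Real.exp 1 * (Real.exp 1 * k * (k:ℝ) ^ k) := by gcongr
      _ = ((k:ℝ) + 1) * Real.exp 1 * (Real.exp 1 * (k:ℝ) ^ (k+1)) := by ring
      _ ≤ ((k:ℝ) + 1) * Real.exp 1 * ((k:ℝ) + 1) ^ (k+1) := by gcongr
      _ = _ := by ring

lemma choose_lower (R k : ℕ) (h : k ≤ R) :
    ((R:ℝ) + 1 - k) ^ k ≤ (R.choose k : ℝ) * k.factorial := by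
  have h1 := Nat.pow_sub_le_descFactorial R k
  rw [Nat.descFactorial_eq_factorial_mul_choose] at h1
  have h2 : (((R + 1 - k : ℕ)) : ℝ) = (R:ℝ) + 1 - k := by
    rw [Nat.cast_sub (by omega)]; push_cast; ring
  rw [← h2]
  calc (((R + 1 - k : ℕ)) : ℝ) ^ k = (((R + 1 - k) ^ k : ℕ) : ℝ) := by push_cast; rfl
    _ ≤ ((k.factorial * R.choose k : ℕ) : ℝ) := by exact_mod_cast h1
    _ = _ := by push_cast; ring

lemma choose_upper (a k : ℕ) : (a.choose k : ℝ) * k.factorial ≤ (a:ℝ) ^ k := by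
  have := Nat.choose_le_pow_div (α := ℝ) k a
  rwa [le_div_iff₀ (by positivity)] at this

section core

variable {k R : ℕ} {L q s : ℝ}

/-- `n q^k ≤ e k b`. -/
lemma n_le_b (hk : 1 ≤ k) (hL : 0 < L) (hq : 0 < q) (hs : 0 < s) (b : ℝ)
    (hb : s ^ k * (R.choose k : ℝ) ≤ b)
    (hR : q * k * L / (s * Real.exp 1) ≤ (R:ℝ) + 1 - k) :
    L ^ k * q ^ k ≤ Real.exp 1 * k * b := by
  have he : 0 < Real.exp 1 := Real.exp_pos 1
  have hk0 : (0:ℝ) < k := by exact_mod_cast hk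
  have hpos : 0 < q * k * L / (s * Real.exp 1) := by positivity
  have hkR : k ≤ R := by
    have : (0:ℝ) < (R:ℝ) + 1 - k := lt_of_lt_of_le hpos hR
    have h2 : (k:ℝ) < (R:ℝ) + 1 := by linarith
    have h3 : k < R + 1 := by exact_mod_cast h2
    omega
  have h1 := choose_lower R k hkR
  have h2 : (q * k * L / (s * Real.exp 1)) ^ k ≤ ((R:ℝ) + 1 - k) ^ k :=
    pow_le_pow_left₀ hpos.le hR _
  have h3 : (q * k * L / (s * Real.exp 1)) ^ k ≤ (R.choose k : ℝ) * k.factorial := h2.trans h1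
  rw [div_pow, div_le_iff₀ (by positivity)] at h3
  have h4 := factorial_mul_exp_le k hk
  have hkk : (0:ℝ) < (k:ℝ) ^ k := by positivity
  have hb0 : 0 ≤ b := le_trans (by positivity) hb
  have h5 : L ^ k * q ^ k * (k:ℝ) ^ k ≤ Real.exp 1 * k * b * (k:ℝ) ^ k := by
    calc L ^ k * q ^ k * (k:ℝ) ^ k = (q * k * L) ^ k := by rw [mul_pow, mul_pow]; ring
      _ ≤ (R.choose k : ℝ) * k.factorial * (s * Real.exp 1) ^ k := h3
      _ = (s ^ k * (R.choose k : ℝ)) * (k.factorial * Real.exp 1 ^ k) := by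
          rw [mul_pow]; ring
      _ ≤ b * (Real.exp 1 * k * (k:ℝ) ^ k) := by
          apply mul_le_mul hb h4 (by positivity) hb0
      _ = _ := by ring
  exact le_of_mul_le_mul_right h5 hkk

/-- `b' ≤ (1 + 6 (j+2) / L)^k b`. -/
lemma b'_le_b (hk : 1 ≤ k) (hL : 0 < L) (hs : 0 < s) (j : ℕ) (b b' : ℝ)
    (hb : s ^ k * (R.choose k : ℝ) ≤ b)
    (hb' : b' ≤ s ^ k * ((R + k * j + k).choose k : ℝ))
    (hR : k * L / 6 ≤ (R:ℝ) + 1 - k) :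
    b' ≤ (1 + 6 * (j + 2) / L) ^ k * b := by
  have hk0 : (0:ℝ) < k := by exact_mod_cast hk
  have hpos : 0 < k * L / 6 := by positivity
  have hkR : k ≤ R := by
    have : (0:ℝ) < (R:ℝ) + 1 - k := lt_of_lt_of_le hpos hR
    have h2 : (k:ℝ) < (R:ℝ) + 1 := by linarith
    have h3 : k < R + 1 := by exact_mod_cast h2
    omega
  have h1 := choose_lower R k hkR
  have h2 := choose_upper (R + k * j + k) k
  have h3 : (((R + k * j + k : ℕ)) : ℝ) ≤ (1 + 6 * (j + 2) / L) * ((R:ℝ) + 1 - k) := by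
    have h4 : 6 * ((j:ℝ) + 2) / L * (k * L / 6) ≤ 6 * (j + 2) / L * ((R:ℝ) + 1 - k) := by
      gcongr
    have h5 : 6 * ((j:ℝ) + 2) / L * (k * L / 6) = k * j + 2 * k := by
      field_simp
    rw [h5] at h4
    push_cast
    have h6 : (1 + 6 * ((j:ℝ) + 2) / L) * ((R:ℝ) + 1 - k) =
      ((R:ℝ) + 1 - k) + 6 * (j + 2) / L * ((R:ℝ) + 1 - k) := by ring
    rw [h6]
    linarith
  have hf : (0:ℝ) < k.factorial := by positivity
  have h7 : b' * k.factorial ≤ (1 + 6 * (j + 2) / L) ^ k * b * k.factorial := by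
    calc b' * k.factorial ≤ s ^ k * ((R + k * j + k).choose k : ℝ) * k.factorial := by gcongr
      _ = s ^ k * (((R + k * j + k).choose k : ℝ) * k.factorial) := by ring
      _ ≤ s ^ k * (((R + k * j + k : ℕ)) : ℝ) ^ k := by gcongr
      _ ≤ s ^ k * ((1 + 6 * (j + 2) / L) * ((R:ℝ) + 1 - k)) ^ k := by gcongr
      _ = (1 + 6 * (j + 2) / L) ^ k * (s ^ k * ((R:ℝ) + 1 - k) ^ k) := by rw [mul_pow]; ring
      _ ≤ (1 + 6 * (j + 2) / L) ^ k * (s ^ k * ((R.choose k : ℝ) * k.factorial)) := by gcongr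
      _ = (1 + 6 * (j + 2) / L) ^ k * (s ^ k * (R.choose k : ℝ)) * k.factorial := by ring
      _ ≤ (1 + 6 * (j + 2) / L) ^ k * b * k.factorial := by gcongr
  exact le_of_mul_le_mul_right h7 hf

end core

lemma small_j {k d j : ℕ} {c L b b' Tj M : ℝ} (hj : 2 ≤ j) (hd : (d:ℝ) ≤ (1 - c) * k)
    (hb : 0 ≤ b) (hM0 : 0 ≤ M) (hT : Tj ≤ (j:ℝ) ^ d)
    (hM : M * (j:ℝ) ^ k ≤ b * b') (hb' : b' ≤ (1 + 6 * (j + 2) / L) ^ k * b) (hL : 0 < L)
    (hsm : 1 + 6 * ((j:ℝ) + 2) / L ≤ (j:ℝ) ^ (c / 2)) (hck : 2 ≤ c * k / 2) :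
    Tj * M ≤ b ^ 2 * (4 * (2:ℝ) ^ (-(c * k / 2)) * (1 / (j:ℝ) ^ 2)) := by
  have hj0 : (0:ℝ) < j := by positivity
  have hj1 : (1:ℝ) ≤ j := by exact_mod_cast (by omega : 1 ≤ j)
  have hj2 : (2:ℝ) ≤ j := by exact_mod_cast hj
  have h1 : b' ≤ (j:ℝ) ^ (c * k / 2) * b := by
    refine hb'.trans ?_
    apply mul_le_mul_of_nonneg_right _ hb
    calc (1 + 6 * ((j:ℝ) + 2) / L) ^ k ≤ ((j:ℝ) ^ (c / 2)) ^ k := by
          apply pow_le_pow_left₀ _ hsm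
          positivity
      _ = (j:ℝ) ^ (c * k / 2) := by
          rw [← Real.rpow_natCast, ← Real.rpow_mul hj0.le]
          congr 1; ring
  have h2 : Tj * M * (j:ℝ) ^ k ≤ (j:ℝ) ^ d * (b * ((j:ℝ) ^ (c * k / 2) * b)) := by
    calc Tj * M * (j:ℝ) ^ k = Tj * (M * (j:ℝ) ^ k) := by ring
      _ ≤ (j:ℝ) ^ d * (b * ((j:ℝ) ^ (c * k / 2) * b)) := by
          apply mul_le_mul hT _ (by positivity) (by positivity)
          exact hM.trans (mul_le_mul_of_nonneg_left h1 hb)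
  have h3 : (j:ℝ) ^ d * (j:ℝ) ^ (c * k / 2) ≤ (j:ℝ) ^ k * (j:ℝ) ^ (-(c * k / 2)) := by
    rw [← Real.rpow_natCast, ← Real.rpow_natCast, ← Real.rpow_add hj0, ← Real.rpow_add hj0]
    apply Real.rpow_le_rpow_of_exponent_le hj1
    nlinarith
  have h4 : (j:ℝ) ^ (-(c * k / 2)) ≤ 4 * (2:ℝ) ^ (-(c * k / 2)) * (1 / (j:ℝ) ^ 2) := by
    have e1 : (j:ℝ) ^ (-(c * k / 2)) = (j:ℝ) ^ (-(c * k / 2 - 2)) * (1 / (j:ℝ) ^ 2) := by
      rw [one_div, ← Real.rpow_natCast (j:ℝ) 2, ← Real.rpow_neg hj0.le, ← Real.rpow_add hj0]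
      congr 1; push_cast; ring
    have e2 : (2:ℝ) ^ (-(c * k / 2 - 2)) = 4 * (2:ℝ) ^ (-(c * k / 2)) := by
      have : -(c * k / 2 - 2) = 2 + (-(c * k / 2)) := by ring
      rw [this, Real.rpow_add (by norm_num)]
      norm_num
    rw [e1, ← e2]
    apply mul_le_mul_of_nonneg_right _ (by positivity)
    apply Real.rpow_le_rpow_of_nonpos (by norm_num) hj2
    linarith
  have hjk : (0:ℝ) < (j:ℝ) ^ k := by positivity
  have h5 : Tj * M * (j:ℝ) ^ k ≤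
      b ^ 2 * (4 * (2:ℝ) ^ (-(c * k / 2)) * (1 / (j:ℝ) ^ 2)) * (j:ℝ) ^ k := by
    calc Tj * M * (j:ℝ) ^ k ≤ (j:ℝ) ^ d * (b * ((j:ℝ) ^ (c * k / 2) * b)) := h2
      _ = b ^ 2 * ((j:ℝ) ^ d * (j:ℝ) ^ (c * k / 2)) := by ring
      _ ≤ b ^ 2 * ((j:ℝ) ^ k * (j:ℝ) ^ (-(c * k / 2))) := by gcongr
      _ ≤ b ^ 2 * ((j:ℝ) ^ k * (4 * (2:ℝ) ^ (-(c * k / 2)) * (1 / (j:ℝ) ^ 2))) := by gcongr
      _ = _ := by ring
  exact le_of_mul_le_mul_right h5 hjk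

lemma large_j {k d j : ℕ} {c L b n q A θ m Tj M : ℝ} (hj : 1 ≤ j) (hd : (d:ℝ) ≤ (1 - c) * k)
    (hc : 0 ≤ c)
    (hb : 0 ≤ b) (hT0 : 0 ≤ Tj) (hTn : Tj ≤ n) (hT : Tj ≤ (j:ℝ) ^ d) (hn : n = L ^ k)
    (hL : 1 ≤ L) (hjA : (j:ℝ) ≤ A * k * L) (hAk : 1 ≤ A * k)
    (hM : M ≤ b * m) (hm : m ≤ q ^ ((k:ℝ) / 4)) (hq : 0 < q)
    (hnb : n * q ^ k ≤ Real.exp 1 * k * b) (hθ0 : 0 ≤ θ) (hθ1 : θ ≤ 1)
    (hθ : (A * k) ^ θ ≤ q ^ ((1:ℝ) / 4)) (hθ2 : 1 ≤ c * θ * k) :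
    Tj * M ≤ b ^ 2 * (Real.exp 1 * k * q ^ (-((k:ℝ) / 2)) / L) := by
  have hL0 : 0 < L := by linarith
  have hAk0 : 0 < A * k := by linarith
  have hn0 : 0 < n := by rw [hn]; positivity
  have hj0 : (0:ℝ) < j := by positivity
  have hk0 : (0:ℝ) ≤ k := by positivity
  -- bound on Tj / n
  have h1 : Tj / n ≤ ((A * k) ^ (k:ℝ) * L ^ (-(c * k))) ^ θ := by
    have h2 : Tj / n ≤ (A * k) ^ (k:ℝ) * L ^ (-(c * k)) := by
      rw [div_le_iff₀ hn0]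
      have hAkL : 1 ≤ A * k * L := by nlinarith
      calc Tj ≤ (j:ℝ) ^ d := hT
        _ ≤ (A * k * L) ^ d := by gcongr
        _ = (A * k * L) ^ (d:ℝ) := by rw [Real.rpow_natCast]
        _ ≤ (A * k * L) ^ ((1 - c) * k) := Real.rpow_le_rpow_of_exponent_le hAkL hd
        _ = (A * k) ^ ((1 - c) * k) * L ^ ((1 - c) * k) := Real.mul_rpow hAk0.le hL0.le
        _ ≤ (A * k) ^ (k:ℝ) * L ^ ((1 - c) * k) := by
            apply mul_le_mul_of_nonneg_right _ (by positivity)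
            apply Real.rpow_le_rpow_of_exponent_le hAk
            nlinarith
        _ = (A * k) ^ (k:ℝ) * L ^ (-(c * k)) * n := by
            rw [hn, mul_assoc, ← Real.rpow_natCast L k, ← Real.rpow_add hL0]
            congr 2; ring
    have h3 : Tj / n ≤ 1 := by rw [div_le_one hn0]; exact hTn
    have h4 : 0 ≤ Tj / n := by positivity
    calc Tj / n = (Tj / n) ^ (1:ℝ) := by rw [Real.rpow_one]
      _ ≤ (Tj / n) ^ θ := by
          rcases h4.eq_or_lt with h0 | h0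
          · rw [← h0, Real.zero_rpow one_ne_zero]
            exact Real.rpow_nonneg le_rfl _
          · exact Real.rpow_le_rpow_of_exponent_ge h0 h3 hθ1
      _ ≤ _ := Real.rpow_le_rpow h4 h2 hθ0
  have h5 : ((A * k) ^ (k:ℝ) * L ^ (-(c * k))) ^ θ ≤ q ^ ((k:ℝ) / 4) * L⁻¹ := by
    rw [Real.mul_rpow (by positivity) (by positivity)]
    apply mul_le_mul _ _ (by positivity) (by positivity)
    · rw [← Real.rpow_mul hAk0.le, mul_comm (k:ℝ) θ, Real.rpow_mul hAk0.le]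
      calc ((A * k) ^ θ) ^ (k:ℝ) ≤ (q ^ ((1:ℝ) / 4)) ^ (k:ℝ) :=
            Real.rpow_le_rpow (by positivity) hθ hk0
        _ = q ^ ((k:ℝ) / 4) := by rw [← Real.rpow_mul hq.le]; congr 1; ring
    · rw [← Real.rpow_mul hL0.le, ← Real.rpow_neg_one L]
      apply Real.rpow_le_rpow_of_exponent_le hL
      nlinarith
  have h6 : Tj ≤ n * (q ^ ((k:ℝ) / 4) * L⁻¹) := by
    have := h1.trans h5
    rw [div_le_iff₀ hn0] at this
    linarith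
  have h7 : M ≤ b * q ^ ((k:ℝ) / 4) := hM.trans (mul_le_mul_of_nonneg_left hm hb)
  have hq4 : 0 < q ^ ((k:ℝ) / 4) := by positivity
  have h8 : Tj * M ≤ n * (q ^ ((k:ℝ) / 4) * L⁻¹) * (b * q ^ ((k:ℝ) / 4)) := by
    calc Tj * M ≤ Tj * (b * q ^ ((k:ℝ) / 4)) := mul_le_mul_of_nonneg_left h7 hT0
      _ ≤ _ := mul_le_mul_of_nonneg_right h6 (by positivity)
  have h9 : n ≤ Real.exp 1 * k * b * q ^ (-(k:ℝ)) := by
    rw [Real.rpow_neg hq.le, Real.rpow_natCast, ← div_eq_mul_inv, le_div_iff₀ (by positivity)]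
    exact hnb
  have h10 : q ^ (-(k:ℝ)) * (q ^ ((k:ℝ) / 4) * q ^ ((k:ℝ) / 4)) = q ^ (-((k:ℝ) / 2)) := by
    rw [← Real.rpow_add hq, ← Real.rpow_add hq]
    congr 1; ring
  calc Tj * M ≤ n * (q ^ ((k:ℝ) / 4) * L⁻¹) * (b * q ^ ((k:ℝ) / 4)) := h8
    _ ≤ (Real.exp 1 * k * b * q ^ (-(k:ℝ))) * (q ^ ((k:ℝ) / 4) * L⁻¹) * (b * q ^ ((k:ℝ) / 4)) := by
        gcongr
    _ = b ^ 2 * (Real.exp 1 * k * (q ^ (-(k:ℝ)) * (q ^ ((k:ℝ) / 4) * q ^ ((k:ℝ) / 4))) / L) := by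
        field_simp
    _ = _ := by rw [h10]

lemma sum_inv_sq_le (J : ℕ) : ∑ j ∈ Finset.Icc 2 J, (1:ℝ) / (j:ℝ) ^ 2 ≤ 1 := by
  have h : ∀ J : ℕ, 1 ≤ J → ∑ j ∈ Finset.Icc 2 J, (1:ℝ) / (j:ℝ) ^ 2 ≤ 1 - 1 / (J:ℝ) := by
    intro J hJ
    induction J, hJ using Nat.le_induction with
    | base => simp
    | succ J hJ ih =>
      rw [Finset.sum_Icc_succ_top (by omega)]
      have hJ0 : (0:ℝ) < J := by exact_mod_cast hJ
      have h1 : 1 / (((J + 1 : ℕ)) : ℝ) ^ 2 ≤ 1 / (J:ℝ) - 1 / (((J + 1 : ℕ)) : ℝ) := by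
        push_cast
        rw [div_sub_div _ _ hJ0.ne' (by positivity), div_le_div_iff₀ (by positivity) (by positivity)]
        nlinarith
      linarith
  rcases Nat.eq_zero_or_pos J with h0 | h0
  · subst h0; simp
  · have h1 := h J h0
    have : (0:ℝ) ≤ 1 / J := by positivity
    linarith

end Pool.Agent.H90.Cayley
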