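import Pool.Agent.H90.CayleyAnalysis

/-!
Assembly of the second moment bound.
-/

open Finset

namespace Pool.Agent.H90.Cayley

theorem fail_ratio_le {G : Type*} [AddCommGroup G] [Fintype G] [DecidableEq G] {k R : ℕ}
    {s L q c A C θ : ℝ} (B : ℕ → Finset (Fin k → ℤ))
    (hB1 : ∀ R, s ^ k * (R.choose k : ℝ) ≤ ((B R).card : ℝ))
    (hB2 : ∀ R, ((B R).card : ℝ) ≤ s ^ k * ((R + k).choose k : ℝ))
    (hB3 : ∀ (R g : ℕ), ∀ w ∈ B R, ∀ r : Fin k → Fin g,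
      (fun i => w i + ((r i : ℕ) : ℤ)) ∈ B (R + k * g))
    (hB4 : ∀ R, ∀ w ∈ B R, ∑ i, (w i).natAbs ≤ R)
    (hs1 : 1 ≤ s) (hs2 : s ≤ 2) (hk : 1 ≤ k) (hL : 1 ≤ L) (hn : (Nat.card G : ℝ) = L ^ k)
    (hq : 1 ≤ q) (hc : 0 ≤ c) (hd : ((AddGroup.rank G : ℕ) : ℝ) ≤ (1 - c) * k)
    (hR : q * k * L / (s * Real.exp 1) ≤ (R:ℝ) + 1 - k) (hRA : 2 * (R:ℝ) ≤ A * k * L)
    (hAk : 1 ≤ A * k) (hC : 0 < C)
    (hsm : ∀ j : ℕ, 2 ≤ j → (j:ℝ) ≤ C * L → 1 + 6 * ((j:ℝ) + 2) / L ≤ (j:ℝ) ^ (c / 2))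
    (hlg : ∀ r : ℕ, (r:ℝ) * C ≤ A * k → ((ballU k r).card : ℝ) ≤ q ^ ((k:ℝ) / 4))
    (hθ0 : 0 ≤ θ) (hθ1 : θ ≤ 1) (hθ : (A * k) ^ θ ≤ q ^ ((1:ℝ) / 4)) (hθ2 : 1 ≤ c * θ * k)
    (hck : 2 ≤ c * k / 2) :
    (failCount G (B R) : ℝ) ≤ (Nat.card G : ℝ) ^ (k + 1) *
      (Real.exp 1 * k * q ^ (-(k:ℝ)) + 4 * (2:ℝ) ^ (-(c * k / 2)) +
        A * k * (Real.exp 1 * k * q ^ (-((k:ℝ) / 2)))) := by
  have hL0 : 0 < L := by linarith
  have hq0 : 0 < q := by linarith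
  have hs0 : 0 < s := by linarith
  have hk0 : (0:ℝ) < k := by exact_mod_cast hk
  have he : Real.exp 1 < 2.7182818286 := Real.exp_one_lt_d9
  have he0 : 0 < Real.exp 1 := Real.exp_pos 1
  set b : ℝ := ((B R).card : ℝ) with hb
  set n : ℝ := (Nat.card G : ℝ) with hnn
  have hR6 : k * L / 6 ≤ (R:ℝ) + 1 - k := by
    refine le_trans ?_ hR
    rw [div_le_div_iff₀ (by norm_num) (by positivity)]
    have h1 : s * Real.exp 1 ≤ 6 := by nlinarith
    have h2 : 0 < k * L := by positivity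
    calc k * L * (s * Real.exp 1) ≤ k * L * 6 := by gcongr
      _ ≤ q * (k * L * 6) := le_mul_of_one_le_left (by positivity) hq
      _ = _ := by ring
  have hnb : n * q ^ k ≤ Real.exp 1 * k * b := by
    rw [hn]
    exact n_le_b hk hL0 hq0 hs0 b (hB1 R) hR
  have hn0 : 0 < n := by rw [hn]; positivity
  have hb0 : 0 < b := by
    have h1 : 0 < n * q ^ k := by positivity
    have h2 : 0 < Real.exp 1 * k * b := lt_of_lt_of_le h1 hnb
    by_contra hcon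
    have h3 : b ≤ 0 := not_lt.mp hcon
    have h4 : 0 < Real.exp 1 * k := by positivity
    nlinarith
  have hfb := fail_bound (G := G) (B R) (hB4 R)
  have hj : ∀ j ∈ Finset.Icc 2 (2 * R), T G j * (modPairs (B R) j : ℝ) ≤
      b ^ 2 * (4 * (2:ℝ) ^ (-(c * k / 2)) * (1 / (j:ℝ) ^ 2) +
        Real.exp 1 * k * q ^ (-((k:ℝ) / 2)) / L) := by
    intro j hj
    rw [Finset.mem_Icc] at hj
    have hjpos : 0 < j := by omega
    rw [mul_add]
    rcases le_or_gt (j:ℝ) (C * L) with h1 | h1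
    · have h2 : T G j * (modPairs (B R) j : ℝ) ≤
          b ^ 2 * (4 * (2:ℝ) ^ (-(c * k / 2)) * (1 / (j:ℝ) ^ 2)) := by
        apply small_j (k := k) (d := AddGroup.rank G) (c := c) (L := L)
          (b' := ((B (R + k * j)).card : ℝ)) hj.1 hd hb0.le (by positivity)
          (T_le_pow j hjpos) _ _ hL0 (hsm j hj.1 h1) hck
        · have := card_pairs_le hjpos (B R) (B (R + k * j)) (fun w hw r => hB3 R j w hw r)
          unfold modPairs
          rw [hb]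
          exact_mod_cast this
        · apply b'_le_b (R := R) hk hL0 hs0 j b _ (hB1 R) _ hR6
          have := hB2 (R + k * j)
          exact this
      have h3 : 0 ≤ b ^ 2 * (Real.exp 1 * k * q ^ (-((k:ℝ) / 2)) / L) := by positivity
      linarith
    · have h2 : T G j * (modPairs (B R) j : ℝ) ≤
          b ^ 2 * (Real.exp 1 * k * q ^ (-((k:ℝ) / 2)) / L) := by
        apply large_j (k := k) (d := AddGroup.rank G) (j := j) (c := c) (n := n) (q := q)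
          (A := A) (θ := θ) (m := ((ballU k (2 * R / j)).card : ℝ)) (by omega) hd hc hb0.le
          (T_nonneg j) (T_le_card j) (T_le_pow j hjpos) hn hL _ hAk _ _ hq0 hnb hθ0 hθ1 hθ hθ2
        · calc (j:ℝ) ≤ ((2 * R : ℕ) : ℝ) := by exact_mod_cast hj.2
            _ = 2 * (R:ℝ) := by push_cast; ring
            _ ≤ _ := hRA
        · have := card_pairs_le' hjpos (B R) (hB4 R)
          unfold modPairs
          rw [hb]
          exact_mod_cast this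
        · apply hlg
          have h4 : (((2 * R / j : ℕ)) : ℝ) ≤ ((2 * R : ℕ) : ℝ) / (j:ℝ) := Nat.cast_div_le
          have h5 : ((2 * R : ℕ) : ℝ) / (j:ℝ) ≤ (A * k * L) / (C * L) := by
            push_cast
            apply div_le_div₀ (by positivity) hRA (by positivity) h1.le
          calc (((2 * R / j : ℕ)) : ℝ) * C ≤ (A * k * L) / (C * L) * C := by
                apply mul_le_mul_of_nonneg_right (h4.trans h5) hC.le
            _ = A * k := by field_simp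
      have h3 : 0 ≤ b ^ 2 * (4 * (2:ℝ) ^ (-(c * k / 2)) * (1 / (j:ℝ) ^ 2)) := by positivity
      linarith
  have hsum : ∑ j ∈ Finset.Icc 2 (2 * R), T G j * (modPairs (B R) j : ℝ) ≤
      b ^ 2 * (4 * (2:ℝ) ^ (-(c * k / 2)) + A * k * (Real.exp 1 * k * q ^ (-((k:ℝ) / 2)))) := by
    calc ∑ j ∈ Finset.Icc 2 (2 * R), T G j * (modPairs (B R) j : ℝ)
        ≤ ∑ j ∈ Finset.Icc 2 (2 * R), b ^ 2 * (4 * (2:ℝ) ^ (-(c * k / 2)) * (1 / (j:ℝ) ^ 2) +
        Real.exp 1 * k * q ^ (-((k:ℝ) / 2)) / L) := Finset.sum_le_sum hj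
      _ = b ^ 2 * (4 * (2:ℝ) ^ (-(c * k / 2)) * (∑ j ∈ Finset.Icc 2 (2 * R), (1:ℝ) / (j:ℝ) ^ 2) +
          ((Finset.Icc 2 (2 * R)).card : ℝ) * (Real.exp 1 * k * q ^ (-((k:ℝ) / 2)) / L)) := by
          rw [← Finset.mul_sum, Finset.sum_add_distrib, ← Finset.mul_sum]
          simp
      _ ≤ b ^ 2 * (4 * (2:ℝ) ^ (-(c * k / 2)) * 1 +
          (A * k * L) * (Real.exp 1 * k * q ^ (-((k:ℝ) / 2)) / L)) := by
          have h6 : ((Finset.Icc 2 (2 * R)).card : ℝ) ≤ A * k * L := by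
            refine le_trans ?_ hRA
            rw [Nat.card_Icc]
            have : 2 * R + 1 - 2 ≤ 2 * R := by omega
            calc (((2 * R + 1 - 2 : ℕ)) : ℝ) ≤ ((2 * R : ℕ) : ℝ) := by exact_mod_cast this
              _ = 2 * (R:ℝ) := by push_cast; ring
          have h7 := sum_inv_sq_le (2 * R)
          gcongr
      _ = _ := by
          congr 1
          field_simp
  have hnb2 : n * b ≤ b ^ 2 * (Real.exp 1 * k * q ^ (-(k:ℝ))) := by
    have h9 : n ≤ Real.exp 1 * k * b * q ^ (-(k:ℝ)) := by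
      rw [Real.rpow_neg hq0.le, Real.rpow_natCast, ← div_eq_mul_inv, le_div_iff₀ (by positivity)]
      exact hnb
    calc n * b ≤ (Real.exp 1 * k * b * q ^ (-(k:ℝ))) * b := by gcongr
      _ = _ := by ring
  have hfin : b ^ 2 * (failCount G (B R) : ℝ) ≤ b ^ 2 * (n ^ (k + 1) *
      (Real.exp 1 * k * q ^ (-(k:ℝ)) + 4 * (2:ℝ) ^ (-(c * k / 2)) +
        A * k * (Real.exp 1 * k * q ^ (-((k:ℝ) / 2))))) := by
    calc b ^ 2 * (failCount G (B R) : ℝ) ≤ n ^ (k + 1) *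
      (n * b + ∑ j ∈ Finset.Icc 2 (2 * R), T G j * (modPairs (B R) j : ℝ)) := hfb
      _ ≤ n ^ (k + 1) * (b ^ 2 * (Real.exp 1 * k * q ^ (-(k:ℝ))) +
        b ^ 2 * (4 * (2:ℝ) ^ (-(c * k / 2)) + A * k * (Real.exp 1 * k * q ^ (-((k:ℝ) / 2))))) := by
          gcongr
      _ = _ := by ring
  exact le_of_mul_le_mul_left hfin (by positivity)

end Pool.Agent.H90.Cayley
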