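import Pool.Agent.H90.CayleyAssemble

/-!
Asymptotic form of the second moment bound along sequences.
-/

open Finset Filter Topology

namespace Pool.Agent.H90.Cayley

/-- Small l1 balls: choice of constants. -/
lemma exists_kappa {q : ℝ} (hq : 1 < q) : ∃ κ : ℝ, 0 < κ ∧ ∀ k r : ℕ, (r:ℝ) ≤ κ * k →
    ((ballU k r).card : ℝ) ≤ q ^ ((k:ℝ) / 4) := by
  have hq0 : 0 < q := by linarith
  set p : ℝ := q ^ ((1:ℝ) / 8) with hp
  have hp1 : 1 < p := Real.one_lt_rpow hq (by norm_num)
  set x : ℝ := (p - 1) / (p + 1) with hx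
  have hx0 : 0 < x := by
    apply div_pos <;> linarith
  have hx1 : x < 1 := by
    rw [hx, div_lt_one (by linarith)]; linarith
  have hxp : (1 + x) / (1 - x) = p := by
    rw [hx]
    have h1 : p + 1 ≠ 0 := by linarith
    have h2 : (1 - (p - 1) / (p + 1)) ≠ 0 := by
      have : (1 - (p - 1) / (p + 1)) = 2 / (p + 1) := by field_simp; ring
      rw [this]; positivity
    field_simp
    ring
  have hlx : Real.log x < 0 := Real.log_neg hx0 hx1
  have hlp : 0 < Real.log p := Real.log_pos hp1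
  refine ⟨Real.log p / (- Real.log x), by apply div_pos hlp; linarith, ?_⟩
  intro k r hr
  have h1 := card_ballU_small k r hx0 hx1
  rw [hxp] at h1
  have h2 : x ^ (r:ℝ) ≥ p ^ (-(k:ℝ)) := by
    rw [Real.rpow_def_of_pos hx0, Real.rpow_def_of_pos (by linarith : 0 < p)]
    apply Real.exp_le_exp.mpr
    have h3 : (r:ℝ) * (- Real.log x) ≤ Real.log p * k := by
      calc (r:ℝ) * (- Real.log x) ≤ Real.log p / (- Real.log x) * k * (- Real.log x) := by
            apply mul_le_mul_of_nonneg_right hr; linarith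
        _ = Real.log p * k := by
            have : Real.log x ≠ 0 := hlx.ne
            field_simp
    nlinarith
  rw [Real.rpow_natCast] at h2
  have hpk : 0 < p ^ (-(k:ℝ)) := by positivity
  have hpos : (0:ℝ) ≤ ((ballU k r).card : ℝ) := by positivity
  have h4 : ((ballU k r).card : ℝ) * p ^ (-(k:ℝ)) ≤ p ^ k :=
    (mul_le_mul_of_nonneg_left h2 hpos).trans h1
  have h5 : ((ballU k r).card : ℝ) ≤ p ^ k * p ^ (k:ℝ) := by
    have h6 : p ^ (-(k:ℝ)) * p ^ (k:ℝ) = 1 := by
      rw [← Real.rpow_add (by linarith : 0 < p)]; simp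
    calc ((ballU k r).card : ℝ) = ((ballU k r).card : ℝ) * (p ^ (-(k:ℝ)) * p ^ (k:ℝ)) := by
          rw [h6, mul_one]
      _ = ((ballU k r).card : ℝ) * p ^ (-(k:ℝ)) * p ^ (k:ℝ) := by ring
      _ ≤ p ^ k * p ^ (k:ℝ) := by gcongr
  calc ((ballU k r).card : ℝ) ≤ p ^ k * p ^ (k:ℝ) := h5
    _ = q ^ ((k:ℝ) / 4) := by
        rw [← Real.rpow_natCast p k, ← Real.rpow_add (by linarith : 0 < p), hp,
          ← Real.rpow_mul hq0.le]
        congr 1; ring

/-- The smallness condition for moderate moduli holds for large `L`. -/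
lemma eventually_small {c C : ℝ} (hc : 0 < c) (_hC : 0 < C) : ∀ᶠ L : ℝ in atTop,
    ∀ j : ℕ, 2 ≤ j → (j:ℝ) ≤ C * L → 1 + 6 * ((j:ℝ) + 2) / L ≤ (j:ℝ) ^ (c / 2) := by
  have h2c : 1 < (2:ℝ) ^ (c / 2) := Real.one_lt_rpow (by norm_num) (by linarith)
  set δ : ℝ := ((2:ℝ) ^ (c / 2) - 1) / 12 with hδ
  have hδ0 : 0 < δ := by rw [hδ]; linarith
  have hev : ∀ᶠ L : ℝ in atTop, 13 + 6 * C ≤ (δ * L) ^ (c / 2) := by
    have h1 : Tendsto (fun L : ℝ => (δ * L) ^ (c / 2)) atTop atTop :=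
      (tendsto_rpow_atTop (by linarith)).comp (tendsto_id.const_mul_atTop hδ0)
    exact h1.eventually_ge_atTop _
  filter_upwards [hev, eventually_ge_atTop (2 / δ), eventually_ge_atTop 1] with L h1 h2 h3
  intro j hj hjC
  have hL0 : 0 < L := by linarith
  have hj2 : (2:ℝ) ≤ j := by exact_mod_cast hj
  rcases le_or_gt (j:ℝ) (δ * L) with h4 | h4
  · have h5 : 6 * ((j:ℝ) + 2) / L ≤ 12 * δ := by
      rw [div_le_iff₀ hL0]
      rw [div_le_iff₀ hδ0] at h2
      nlinarith
    calc 1 + 6 * ((j:ℝ) + 2) / L ≤ 1 + 12 * δ := by linarith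
      _ = (2:ℝ) ^ (c / 2) := by rw [hδ]; ring
      _ ≤ (j:ℝ) ^ (c / 2) := Real.rpow_le_rpow (by norm_num) hj2 (by linarith)
  · have h5 : 6 * ((j:ℝ) + 2) / L ≤ 6 * C + 12 := by
      rw [div_le_iff₀ hL0]
      nlinarith
    calc 1 + 6 * ((j:ℝ) + 2) / L ≤ 13 + 6 * C := by linarith
      _ ≤ (δ * L) ^ (c / 2) := h1
      _ ≤ (j:ℝ) ^ (c / 2) := Real.rpow_le_rpow (by positivity) h4.le (by linarith)

/-- The final bound tends to zero. -/
lemma tendsto_bound {q c A : ℝ} (hq : 1 < q) (hc : 0 < c) :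
    Tendsto (fun k : ℕ => Real.exp 1 * k * q ^ (-(k:ℝ)) + 4 * (2:ℝ) ^ (-(c * k / 2)) +
        A * k * (Real.exp 1 * k * q ^ (-((k:ℝ) / 2)))) atTop (𝓝 0) := by
  have hq0 : 0 < q := by linarith
  have h1 : Tendsto (fun k : ℕ => Real.exp 1 * k * q ^ (-(k:ℝ))) atTop (𝓝 0) := by
    have h := tendsto_pow_const_mul_const_pow_of_abs_lt_one 1 (r := q⁻¹) (by
      rw [abs_of_pos (by positivity)]; exact inv_lt_one_of_one_lt₀ hq)
    have h' := h.const_mul (Real.exp 1)
    rw [mul_zero] at h'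
    refine h'.congr (fun k => ?_)
    rw [Real.rpow_neg hq0.le, Real.rpow_natCast, pow_one, inv_pow]
    ring
  have h2 : Tendsto (fun k : ℕ => 4 * (2:ℝ) ^ (-(c * k / 2))) atTop (𝓝 0) := by
    have h := tendsto_pow_atTop_nhds_zero_of_lt_one (r := (2:ℝ) ^ (-(c / 2))) (by positivity)
      (Real.rpow_lt_one_of_one_lt_of_neg (by norm_num) (by linarith))
    have h' := h.const_mul 4
    rw [mul_zero] at h'
    refine h'.congr (fun k => ?_)
    rw [← Real.rpow_natCast, ← Real.rpow_mul (by norm_num)]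
    congr 2; ring
  have h3 : Tendsto (fun k : ℕ => A * k * (Real.exp 1 * k * q ^ (-((k:ℝ) / 2)))) atTop (𝓝 0) := by
    have h := tendsto_pow_const_mul_const_pow_of_abs_lt_one 2 (r := q ^ (-((1:ℝ) / 2))) (by
      rw [abs_of_pos (by positivity)]
      exact Real.rpow_lt_one_of_one_lt_of_neg hq (by norm_num))
    have h' := h.const_mul (A * Real.exp 1)
    rw [mul_zero] at h'
    refine h'.congr (fun k => ?_)
    have : q ^ (-((k:ℝ) / 2)) = (q ^ (-((1:ℝ) / 2))) ^ k := by
      rw [← Real.rpow_natCast, ← Real.rpow_mul hq0.le]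
      congr 1; ring
    rw [this]
    ring
  simpa using (h1.add h2).add h3

/-- Conditions on the number of generators. -/
lemma eventually_theta {q c A : ℝ} (hq : 1 < q) (hc : 0 < c) (hA : 0 < A) :
    ∀ᶠ k : ℕ in atTop, ∃ θ : ℝ, 0 ≤ θ ∧ θ ≤ 1 ∧ (A * k) ^ θ ≤ q ^ ((1:ℝ) / 4) ∧
      1 ≤ c * θ * k := by
  have hq0 : 0 < q := by linarith
  have hlq : 0 < Real.log q := Real.log_pos hq
  have hAk : Tendsto (fun k : ℕ => A * (k:ℝ)) atTop atTop :=
    tendsto_natCast_atTop_atTop.const_mul_atTop hA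
  have hlog : Tendsto (fun k : ℕ => Real.log (A * (k:ℝ))) atTop atTop :=
    Real.tendsto_log_atTop.comp hAk
  have hratio : Tendsto (fun x : ℝ => Real.log x / x) atTop (𝓝 0) := by
    have := Real.isLittleO_log_id_atTop
    exact this.tendsto_div_nhds_zero
  have hr2 : Tendsto (fun k : ℕ => Real.log (A * (k:ℝ)) / (A * k)) atTop (𝓝 0) :=
    hratio.comp hAk
  have hε : 0 < c * Real.log q / (4 * A) := by positivity
  filter_upwards [hlog.eventually_ge_atTop (Real.log q), hlog.eventually_ge_atTop 1,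
    hr2.eventually (gt_mem_nhds hε), eventually_gt_atTop 0] with k h1 h2 h3 h4
  have hk0 : (0:ℝ) < k := by exact_mod_cast h4
  have hl0 : 0 < Real.log (A * k) := by linarith
  have hAk0 : 0 < A * k := by positivity
  refine ⟨Real.log q / (4 * Real.log (A * k)), by positivity, ?_, ?_, ?_⟩
  · rw [div_le_one (by positivity)]; linarith
  · rw [Real.rpow_def_of_pos hAk0, Real.rpow_def_of_pos hq0]
    apply Real.exp_le_exp.mpr
    apply le_of_eq
    field_simp
  · rw [div_lt_div_iff₀ hAk0 (by positivity)] at h3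
    have h5 : c * (Real.log q / (4 * Real.log (A * k))) * k =
        (c * Real.log q * (A * k)) / (Real.log (A * k) * (4 * A)) := by
      field_simp
    rw [h5, one_le_div (by positivity)]
    exact h3.le

/-- Asymptotic covering: the words in `B` of length at most `(1 + ε) k L / (s e)` reach almost
every group element, for almost every choice of generators. -/
theorem cover_tendsto {G : ℕ → Type*} [∀ N, AddCommGroup (G N)] [∀ N, Fintype (G N)]
    [∀ N, DecidableEq (G N)] {k : ℕ → ℕ} {L : ℕ → ℝ} {s c ε : ℝ}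
    (B : ∀ k : ℕ, ℕ → Finset (Fin k → ℤ))
    (hB1 : ∀ k R, s ^ k * (R.choose k : ℝ) ≤ ((B k R).card : ℝ))
    (hB2 : ∀ k R, ((B k R).card : ℝ) ≤ s ^ k * ((R + k).choose k : ℝ))
    (hB3 : ∀ (k R g : ℕ), ∀ w ∈ B k R, ∀ r : Fin k → Fin g,
      (fun i => w i + ((r i : ℕ) : ℤ)) ∈ B k (R + k * g))
    (hB4 : ∀ k R, ∀ w ∈ B k R, ∑ i, (w i).natAbs ≤ R)
    (hs1 : 1 ≤ s) (hs2 : s ≤ 2) (hk : Tendsto k atTop atTop) (hL : Tendsto L atTop atTop)
    (hn : ∀ᶠ N in atTop, (Nat.card (G N) : ℝ) = L N ^ (k N)) (hc : 0 < c)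
    (hd : ∀ᶠ N in atTop, ((AddGroup.rank (G N) : ℕ) : ℝ) ≤ (1 - c) * k N)
    (hε : 0 < ε) (hε1 : ε ≤ 1) :
    Tendsto (fun N => (failCount (G N) (B (k N) ⌊(1 + ε) * (k N * L N / (s * Real.exp 1))⌋₊) : ℝ) /
      (Nat.card (G N) : ℝ) ^ (k N + 1)) atTop (𝓝 0) := by
  set q : ℝ := 1 + ε / 2 with hq
  have hq1 : 1 < q := by rw [hq]; linarith
  set A : ℝ := 2 * (1 + ε) with hA
  have hA0 : 0 < A := by rw [hA]; linarith
  have hA1 : 1 ≤ A := by rw [hA]; linarith
  obtain ⟨κ, hκ0, hκ⟩ := exists_kappa hq1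
  have hC : 0 < A / κ := by positivity
  have he0 : 0 < Real.exp 1 := Real.exp_pos 1
  have he1 : 1 ≤ Real.exp 1 := Real.one_le_exp (by norm_num)
  have hs0 : 0 < s := by linarith
  have hbound := (tendsto_bound (A := A) hq1 hc).comp hk
  apply squeeze_zero' _ _ hbound
  · filter_upwards with N
    positivity
  · have e1 := hL.eventually (eventually_small hc hC)
    have e2 := hk.eventually (eventually_theta hq1 hc hA0)
    have e3 : ∀ᶠ N in atTop, 4 / c ≤ (k N : ℝ) :=
      (tendsto_natCast_atTop_atTop.comp hk).eventually_ge_atTop _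
    filter_upwards [e1, e2, e3, hn, hd, hL.eventually_ge_atTop 1,
      hL.eventually_ge_atTop (2 * (s * Real.exp 1) / ε), hk.eventually_ge_atTop 1]
      with N h1 h2 h3 h4 h5 h6 h7 h8
    obtain ⟨θ, hθ0, hθ1, hθ, hθ2⟩ := h2
    have hk0 : (0:ℝ) < k N := by exact_mod_cast h8
    have hk1 : (1:ℝ) ≤ k N := by exact_mod_cast h8
    have hL0 : 0 < L N := by linarith
    have hn0 : (0:ℝ) < (Nat.card (G N) : ℝ) ^ (k N + 1) := by
      rw [h4]; positivity
    rw [div_le_iff₀ hn0]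
    simp only [Function.comp_apply]
    rw [mul_comm _ ((Nat.card (G N) : ℝ) ^ (k N + 1))]
    have hD : 0 ≤ (1 + ε) * (k N * L N / (s * Real.exp 1)) := by positivity
    apply fail_ratio_le (s := s) (L := L N) (q := q) (c := c) (A := A) (C := A / κ) (θ := θ)
      (B (k N)) (hB1 _) (hB2 _) (hB3 _) (hB4 _) hs1 hs2 h8 h6 h4 hq1.le hc.le h5 _ _ _ hC h1 _
      hθ0 hθ1 hθ hθ2
    · rw [div_le_iff₀ hc] at h3
      linarith
    · have h9 := (Nat.lt_floor_add_one ((1 + ε) * (k N * L N / (s * Real.exp 1)))).le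
      have h10 : (k N : ℝ) ≤ (ε / 2) * (k N * L N / (s * Real.exp 1)) := by
        rw [div_le_iff₀ hε] at h7
        rw [← mul_div_assoc, le_div_iff₀ (by positivity)]
        nlinarith
      calc q * k N * L N / (s * Real.exp 1) = (1 + ε) * (k N * L N / (s * Real.exp 1)) -
            (ε / 2) * (k N * L N / (s * Real.exp 1)) := by rw [hq]; ring
        _ ≤ _ := by linarith
    · have h9 := Nat.floor_le hD
      have h10 : k N * L N / (s * Real.exp 1) ≤ k N * L N := by
        apply div_le_self (by positivity)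
        nlinarith
      calc 2 * ((⌊(1 + ε) * (k N * L N / (s * Real.exp 1))⌋₊ : ℕ) : ℝ)
          ≤ 2 * ((1 + ε) * (k N * L N / (s * Real.exp 1))) := by linarith
        _ ≤ 2 * ((1 + ε) * (k N * L N)) := by gcongr
        _ = _ := by rw [hA]; ring
    · nlinarith
    · intro r hr
      apply hκ
      have : (r:ℝ) * (A / κ) = A * (r / κ) := by ring
      rw [this] at hr
      have h11 : (r:ℝ) / κ ≤ k N := le_of_mul_le_mul_left hr hA0
      rw [div_le_iff₀ hκ0] at h11
      linarith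

/-- Lower bound: short words reach few elements. -/
theorem short_tendsto {k : ℕ → ℕ} {L : ℕ → ℝ} {s ε : ℝ} {n : ℕ → ℝ}
    (B : ∀ k : ℕ, ℕ → Finset (Fin k → ℤ))
    (hB2 : ∀ k R, ((B k R).card : ℝ) ≤ s ^ k * ((R + k).choose k : ℝ))
    (hs1 : 1 ≤ s) (hk : Tendsto k atTop atTop) (hL : Tendsto L atTop atTop)
    (hn : ∀ᶠ N in atTop, n N = L N ^ (k N))
    (hε : 0 < ε) (hε1 : ε < 1) :
    Tendsto (fun N => ((B (k N) ⌊(1 - ε) * (k N * L N / (s * Real.exp 1))⌋₊).card : ℝ) /
      n N) atTop (𝓝 0) := by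
  have hs0 : 0 < s := by linarith
  have he0 : 0 < Real.exp 1 := Real.exp_pos 1
  have hr : Tendsto (fun N => (1 - ε / 2) ^ (k N)) atTop (𝓝 0) :=
    (tendsto_pow_atTop_nhds_zero_of_lt_one (by linarith) (by linarith)).comp hk
  apply squeeze_zero' _ _ hr
  · filter_upwards [hn, hL.eventually_ge_atTop 0] with N h1 h2
    rw [h1]; positivity
  · filter_upwards [hn, hL.eventually_gt_atTop 0, hk.eventually_ge_atTop 1,
      hL.eventually_ge_atTop (2 * (s * Real.exp 1) / ε)] with N h1 h2 h3 h4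
    have hk0 : (0:ℝ) < k N := by exact_mod_cast h3
    set R := ⌊(1 - ε) * (k N * L N / (s * Real.exp 1))⌋₊ with hR
    have hD : 0 ≤ (1 - ε) * (k N * L N / (s * Real.exp 1)) := by
      have : 0 ≤ 1 - ε := by linarith
      positivity
    have h5 : (R:ℝ) ≤ (1 - ε) * (k N * L N / (s * Real.exp 1)) := Nat.floor_le hD
    have h6 := choose_upper (R + k N) (k N)
    have h7 : ((k N : ℝ)) ^ (k N) ≤ (k N).factorial * Real.exp 1 ^ (k N) := by
      have := Real.pow_div_factorial_le_exp (x := (k N : ℝ)) (by positivity) (k N)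
      rw [div_le_iff₀ (by positivity)] at this
      have h8 : Real.exp (k N : ℝ) = Real.exp 1 ^ (k N) := by
        rw [← Real.exp_nat_mul]; simp
      rw [h8] at this
      linarith
    rw [h1, div_le_iff₀ (by positivity), ← mul_pow]
    have h9 : s * ((((R + k N : ℕ)) : ℝ) * Real.exp 1) ≤ ((1 - ε / 2) * L N) * k N := by
      rw [div_le_iff₀ hε] at h4
      push_cast
      have h10 : s * (((R:ℝ)) * Real.exp 1) ≤ (1 - ε) * (k N * L N) := by
        calc s * (((R:ℝ)) * Real.exp 1) = (s * Real.exp 1) * R := by ring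
          _ ≤ (s * Real.exp 1) * ((1 - ε) * (k N * L N / (s * Real.exp 1))) := by gcongr
          _ = _ := by field_simp
      nlinarith
    have h11 : ((B (k N) R).card : ℝ) * ((k N).factorial * (k N : ℝ) ^ (k N)) ≤
        ((1 - ε / 2) * L N) ^ (k N) * ((k N).factorial * (k N : ℝ) ^ (k N)) := by
      calc ((B (k N) R).card : ℝ) * ((k N).factorial * (k N : ℝ) ^ (k N))
          ≤ (s ^ (k N) * ((R + k N).choose (k N) : ℝ)) * ((k N).factorial * (k N : ℝ) ^ (k N)) := by
            gcongr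
            exact hB2 _ _
        _ = s ^ (k N) * (((R + k N).choose (k N) : ℝ) * (k N).factorial) * (k N : ℝ) ^ (k N) := by
            ring
        _ ≤ s ^ (k N) * ((((R + k N : ℕ)) : ℝ) ^ (k N)) *
            ((k N).factorial * Real.exp 1 ^ (k N)) := by gcongr
        _ = (s * ((((R + k N : ℕ)) : ℝ) * Real.exp 1)) ^ (k N) * (k N).factorial := by
            rw [mul_pow, mul_pow]; ring
        _ ≤ (((1 - ε / 2) * L N) * k N) ^ (k N) * (k N).factorial := by
            gcongr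
        _ = _ := by rw [mul_pow]; ring
    exact le_of_mul_le_mul_right h11 (by positivity)

end Pool.Agent.H90.Cayley
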