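import Mathlib

/-!
Lattice point counts in l1-balls and simplices of `ℤ^k`.
-/

open Finset

namespace Pool.Agent.H90.Cayley

/-- Nonnegative integer vectors with coordinate sum at most `R`. -/
noncomputable def simplexN (k R : ℕ) : Finset (Fin k → ℕ) :=
  (Fintype.piFinset (fun _ : Fin k => Finset.range (R + 1))).filter (fun w => ∑ i, w i ≤ R)

lemma mem_simplexN {k R : ℕ} {w : Fin k → ℕ} : w ∈ simplexN k R ↔ ∑ i, w i ≤ R := by
  unfold simplexN
  simp only [Finset.mem_filter, Fintype.mem_piFinset, Finset.mem_range, and_iff_right_iff_imp]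
  intro h i
  have : w i ≤ ∑ j, w j := Finset.single_le_sum (fun _ _ => Nat.zero_le _) (Finset.mem_univ i)
  omega

lemma card_simplexN (k R : ℕ) : (simplexN k R).card = (R + k).choose k := by
  induction k generalizing R with
  | zero =>
    have : simplexN 0 R = {fun i => i.elim0} := by
      ext w
      simp only [mem_simplexN, Finset.mem_singleton]
      constructor
      · intro _; exact Subsingleton.elim _ _
      · intro _; simp
    rw [this]; simp
  | succ k ih =>
    have h1 : (simplexN (k+1) R).card = ∑ j ∈ Finset.range (R+1), (simplexN k (R - j)).card := by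
      have : simplexN (k+1) R = (Finset.range (R+1)).biUnion (fun j =>
          (simplexN k (R - j)).map ⟨fun w => (Fin.cons j w : Fin (k+1) → ℕ),
            Fin.cons_right_injective (α := fun _ => ℕ) j⟩) := by
        ext w
        simp only [mem_simplexN, Finset.mem_biUnion, Finset.mem_range, Finset.mem_map,
          Function.Embedding.coeFn_mk]
        constructor
        · intro h
          rw [Fin.sum_univ_succ] at h
          refine ⟨w 0, by omega, Fin.tail w, ?_, Fin.cons_self_tail w⟩
          have : ∑ i, Fin.tail w i = ∑ i : Fin k, w i.succ := rfl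
          omega
        · rintro ⟨j, hj, v, hv, rfl⟩
          rw [Fin.sum_univ_succ]
          simp only [Fin.cons_zero, Fin.cons_succ]
          omega
      rw [this, Finset.card_biUnion]
      · simp
      · intro a _ b _ hab
        simp only [Function.onFun]
        rw [Finset.disjoint_left]
        intro w hw hw'
        simp only [Finset.mem_map, Function.Embedding.coeFn_mk] at hw hw'
        obtain ⟨v, _, rfl⟩ := hw
        obtain ⟨v', _, h⟩ := hw'
        have := congrFun h 0
        simp at this
        exact hab this.symm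
    rw [h1]
    simp_rw [ih]
    have h2 : ∑ j ∈ Finset.range (R+1), (R - j + k).choose k
        = ∑ j ∈ Finset.range (R+1), (j + k).choose k := by
      rw [← Finset.sum_range_reflect]
      apply Finset.sum_congr rfl
      intro j hj
      simp only [Finset.mem_range] at hj
      congr 1
      omega
    rw [h2]
    have := Nat.sum_range_add_choose R k
    rw [this]
    congr 1

/-- The l1 ball of radius `R` in `ℤ^k`. -/
noncomputable def ballU (k R : ℕ) : Finset (Fin k → ℤ) :=
  (Fintype.piFinset (fun _ : Fin k => Finset.Icc (-(R:ℤ)) R)).filter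
    (fun w => ∑ i, (w i).natAbs ≤ R)

/-- The nonnegative part of the l1 ball of radius `R` in `ℤ^k`. -/
noncomputable def ballD (k R : ℕ) : Finset (Fin k → ℤ) :=
  (ballU k R).filter (fun w => ∀ i, 0 ≤ w i)

lemma mem_ballU {k R : ℕ} {w : Fin k → ℤ} : w ∈ ballU k R ↔ ∑ i, (w i).natAbs ≤ R := by
  unfold ballU
  simp only [Finset.mem_filter, Fintype.mem_piFinset, Finset.mem_Icc, and_iff_right_iff_imp]
  intro h i
  have : (w i).natAbs ≤ ∑ j, (w j).natAbs :=
    Finset.single_le_sum (f := fun j => (w j).natAbs) (fun _ _ => Nat.zero_le _)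
      (Finset.mem_univ i)
  omega

lemma mem_ballD {k R : ℕ} {w : Fin k → ℤ} :
    w ∈ ballD k R ↔ ∑ i, (w i).natAbs ≤ R ∧ ∀ i, 0 ≤ w i := by
  unfold ballD
  rw [Finset.mem_filter, mem_ballU]

lemma card_ballU_le (k R : ℕ) : (ballU k R).card ≤ 2 ^ k * (R + k).choose k := by
  have h : (ballU k R).card ≤
      ((Finset.univ : Finset (Fin k → Bool)) ×ˢ (simplexN k R)).card := by
    apply Finset.card_le_card_of_injOn
      (fun w => ((fun i => decide (0 ≤ w i)), (fun i => (w i).natAbs)))
    · intro w hw
      simp only [Finset.mem_coe] at hw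
      simp only [Finset.coe_product, Finset.coe_univ, Set.mem_prod, Set.mem_univ, true_and,
        Finset.mem_coe]
      rw [mem_simplexN]
      exact mem_ballU.mp hw
    · intro w _ w' _ h
      simp only [Prod.mk.injEq] at h
      obtain ⟨h1, h2⟩ := h
      funext i
      have a := congrFun h1 i
      have b := congrFun h2 i
      simp only [decide_eq_decide] at a
      omega
  rw [Finset.card_product, card_simplexN] at h
  simpa using h

lemma le_card_ballU (k R : ℕ) : 2 ^ k * R.choose k ≤ (ballU k R).card := by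
  rcases lt_or_ge R k with hRk | hRk
  · rw [Nat.choose_eq_zero_of_lt hRk]; simp
  have h : ((Finset.univ : Finset (Fin k → Bool)) ×ˢ (simplexN k (R - k))).card
      ≤ (ballU k R).card := by
    apply Finset.card_le_card_of_injOn
      (fun p => fun i => (if p.1 i then (1:ℤ) else -1) * ((p.2 i : ℤ) + 1))
    · intro p hp
      simp only [Finset.coe_product, Finset.coe_univ, Set.mem_prod, Set.mem_univ, true_and,
        Finset.mem_coe] at hp
      rw [mem_simplexN] at hp
      simp only [Finset.mem_coe]
      rw [mem_ballU]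
      have : ∀ i, ((if p.1 i then (1:ℤ) else -1) * ((p.2 i : ℤ) + 1)).natAbs = p.2 i + 1 := by
        intro i
        rw [Int.natAbs_mul]
        split_ifs <;> simp <;> omega
      simp_rw [this]
      rw [Finset.sum_add_distrib]
      simp
      omega
    · intro p _ p' _ h
      simp only at h
      have key : ∀ i, p.1 i = p'.1 i ∧ p.2 i = p'.2 i := by
        intro i
        have := congrFun h i
        rcases Bool.eq_false_or_eq_true (p.1 i) with h1 | h1 <;>
        rcases Bool.eq_false_or_eq_true (p'.1 i) with h2 | h2 <;>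
        rw [h1, h2] at this ⊢ <;> simp at this ⊢ <;> omega
      ext i
      · exact (key i).1 ▸ rfl
      · exact (key i).2
  rw [Finset.card_product, card_simplexN] at h
  have e : R - k + k = R := by omega
  rw [e] at h
  simpa using h

lemma card_ballD (k R : ℕ) : (ballD k R).card = (R + k).choose k := by
  rw [← card_simplexN]
  symm
  apply Finset.card_bij (fun w _ => (fun i => (w i : ℤ)))
  · intro w hw
    rw [mem_simplexN] at hw
    rw [mem_ballD]
    refine ⟨by simpa using hw, fun i => by positivity⟩
  · intro w _ w' _ h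
    funext i
    have := congrFun h i
    simpa using this
  · intro w hw
    rw [mem_ballD] at hw
    refine ⟨fun i => (w i).natAbs, ?_, ?_⟩
    · rw [mem_simplexN]; exact hw.1
    · funext i
      have := hw.2 i
      simp only [Int.natCast_natAbs]
      exact abs_of_nonneg this

/-- Points in a residue class modulo `g`, translated by the box `[0,g)^k`. -/
lemma card_class_le {k g : ℕ} (_hg : 0 < g) (B B' : Finset (Fin k → ℤ))
    (h : ∀ w ∈ B, ∀ r : Fin k → Fin g, (fun i => w i + ((r i : ℕ) : ℤ)) ∈ B')
    (a : Fin k → ℤ) :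
    (B.filter (fun w => ∀ i, (g:ℤ) ∣ w i - a i)).card * g ^ k ≤ B'.card := by
  have h1 : ((B.filter (fun w => ∀ i, (g:ℤ) ∣ w i - a i)) ×ˢ
      (Finset.univ : Finset (Fin k → Fin g))).card ≤ B'.card := by
    apply Finset.card_le_card_of_injOn (fun p => fun i => p.1 i + ((p.2 i : ℕ) : ℤ))
    · intro p hp
      simp only [Finset.coe_product, Finset.coe_filter, Finset.coe_univ, Set.mem_prod,
        Set.mem_ofPred_eq, Set.mem_univ, and_true] at hp
      exact h p.1 hp.1 p.2
    · intro p hp p' hp' he
      simp only [Finset.coe_product, Finset.coe_filter, Finset.coe_univ, Set.mem_prod,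
        Set.mem_ofPred_eq, Set.mem_univ, and_true] at hp hp'
      simp only at he
      have key : ∀ i, p.1 i = p'.1 i ∧ p.2 i = p'.2 i := by
        intro i
        have e := congrFun he i
        obtain ⟨c, hc⟩ := hp.2 i
        obtain ⟨c', hc'⟩ := hp'.2 i
        have l1 := (p.2 i).isLt
        have l2 := (p'.2 i).isLt
        have e2 : (g:ℤ) * (c - c') = ((p'.2 i : ℕ) : ℤ) - ((p.2 i : ℕ) : ℤ) := by
          linear_combination (-1 : ℤ) * hc + hc' + e
        have e3 : c - c' = 0 := by
          by_contra hne
          rcases lt_or_gt_of_ne hne with hlt | hgt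
          · nlinarith
          · nlinarith
        rw [e3] at e2
        constructor
        · simp at e2; omega
        · simp at e2
          apply Fin.ext
          omega
      ext i
      · exact (key i).1
      · exact congrArg _ (key i).2
  rw [Finset.card_product] at h1
  simpa using h1

/-- Pairs of points congruent modulo `g`: bound through residue classes. -/
lemma card_pairs_le {k g : ℕ} (hg : 0 < g) (B B' : Finset (Fin k → ℤ))
    (h : ∀ w ∈ B, ∀ r : Fin k → Fin g, (fun i => w i + ((r i : ℕ) : ℤ)) ∈ B') :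
    ((B ×ˢ B).filter (fun p => ∀ i, (g:ℤ) ∣ p.1 i - p.2 i)).card * g ^ k ≤ B.card * B'.card := by
  have h1 : ((B ×ˢ B).filter (fun p => ∀ i, (g:ℤ) ∣ p.1 i - p.2 i)).card
      = ∑ a ∈ B, (B.filter (fun w => ∀ i, (g:ℤ) ∣ w i - a i)).card := by
    rw [Finset.card_filter, Finset.sum_product_right]
    apply Finset.sum_congr rfl
    intro a _
    rw [Finset.card_filter]
  rw [h1, Finset.sum_mul]
  calc ∑ a ∈ B, (B.filter (fun w => ∀ i, (g:ℤ) ∣ w i - a i)).card * g ^ k
      ≤ ∑ a ∈ B, B'.card := Finset.sum_le_sum (fun a _ => card_class_le hg B B' h a)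
    _ = B.card * B'.card := by simp

/-- Pairs of points congruent modulo `g`: bound through the difference vector. -/
lemma card_pairs_le' {k g R : ℕ} (hg : 0 < g) (B : Finset (Fin k → ℤ))
    (h : ∀ w ∈ B, ∑ i, (w i).natAbs ≤ R) :
    ((B ×ˢ B).filter (fun p => ∀ i, (g:ℤ) ∣ p.1 i - p.2 i)).card
      ≤ B.card * (ballU k (2 * R / g)).card := by
  rw [← Finset.card_product]
  apply Finset.card_le_card_of_injOn (fun p => (p.2, fun i => (p.1 i - p.2 i) / (g:ℤ)))
  · intro p hp
    simp only [Finset.coe_filter, Set.mem_ofPred_eq, Finset.mem_product] at hp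
    simp only [Finset.coe_product, Set.mem_prod, Finset.mem_coe]
    refine ⟨hp.1.2, ?_⟩
    rw [mem_ballU]
    rw [Nat.le_div_iff_mul_le hg, Finset.sum_mul]
    have hb := h _ hp.1.1
    have hb' := h _ hp.1.2
    calc ∑ i, ((p.1 i - p.2 i) / (g:ℤ)).natAbs * g
        = ∑ i, (p.1 i - p.2 i).natAbs := by
          apply Finset.sum_congr rfl
          intro i _
          obtain ⟨c, hc⟩ := hp.2 i
          rw [hc, Int.mul_ediv_cancel_left _ (by positivity), Int.natAbs_mul]
          simp [mul_comm]
      _ ≤ ∑ i, ((p.1 i).natAbs + (p.2 i).natAbs) := by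
          apply Finset.sum_le_sum
          intro i _
          exact Int.natAbs_sub_le _ _
      _ ≤ 2 * R := by rw [Finset.sum_add_distrib]; omega
  · intro p hp p' hp' he
    simp only [Finset.coe_filter, Set.mem_ofPred_eq, Finset.mem_product] at hp hp'
    simp only [Prod.mk.injEq] at he
    obtain ⟨he1, he2⟩ := he
    have key : ∀ i, p.1 i = p'.1 i := by
      intro i
      have e2 := congrFun he2 i
      obtain ⟨c, hc⟩ := hp.2 i
      obtain ⟨c', hc'⟩ := hp'.2 i
      rw [hc, hc', Int.mul_ediv_cancel_left _ (by positivity),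
        Int.mul_ediv_cancel_left _ (by positivity)] at e2
      have e1 := congrFun he1 i
      rw [e2] at hc
      omega
    ext i
    · exact key i
    · exact congrFun he1 i

lemma ballU_add {k g R : ℕ} (w : Fin k → ℤ) (hw : w ∈ ballU k R) (r : Fin k → Fin g) :
    (fun i => w i + ((r i : ℕ) : ℤ)) ∈ ballU k (R + k * g) := by
  rw [mem_ballU] at hw ⊢
  calc ∑ i, (w i + ((r i : ℕ) : ℤ)).natAbs ≤ ∑ i, ((w i).natAbs + g) := by
        apply Finset.sum_le_sum
        intro i _
        have h1 := Int.natAbs_add_le (w i) ((r i : ℕ) : ℤ)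
        have h2 := (r i).isLt
        have h3 : (((r i : ℕ) : ℤ)).natAbs = (r i : ℕ) := Int.natAbs_natCast _
        omega
    _ ≤ R + k * g := by rw [Finset.sum_add_distrib]; simp; omega

lemma ballD_add {k g R : ℕ} (w : Fin k → ℤ) (hw : w ∈ ballD k R) (r : Fin k → Fin g) :
    (fun i => w i + ((r i : ℕ) : ℤ)) ∈ ballD k (R + k * g) := by
  have hw' := hw
  rw [mem_ballD] at hw' ⊢
  refine ⟨?_, ?_⟩
  · have := ballU_add w (mem_ballU.mpr hw'.1) r
    rwa [mem_ballU] at this
  · intro i
    have := hw'.2 i
    positivity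

/-- Exponential-moment bound for the number of points of a small l1 ball. -/
lemma card_ballU_small (k r : ℕ) {x : ℝ} (hx0 : 0 < x) (hx1 : x < 1) :
    ((ballU k r).card : ℝ) * x ^ r ≤ ((1 + x) / (1 - x)) ^ k := by
  have h1 : ((ballU k r).card : ℝ) * x ^ r ≤ ∑ w ∈ ballU k r, ∏ i, x ^ (w i).natAbs := by
    rw [← nsmul_eq_mul, ← Finset.sum_const]
    apply Finset.sum_le_sum
    intro w hw
    rw [Finset.prod_pow_eq_pow_sum]
    exact pow_le_pow_of_le_one hx0.le hx1.le (mem_ballU.mp hw)
  have h2 : ∑ w ∈ ballU k r, ∏ i, x ^ (w i).natAbs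
      ≤ ∑ w ∈ Fintype.piFinset (fun _ : Fin k => Finset.Icc (-(r:ℤ)) r),
          ∏ i, x ^ (w i).natAbs := by
    apply Finset.sum_le_sum_of_subset_of_nonneg
    · exact Finset.filter_subset _ _
    · intro w _ _
      positivity
  have h3 : ∑ w ∈ Fintype.piFinset (fun _ : Fin k => Finset.Icc (-(r:ℤ)) r),
          ∏ i, x ^ (w i).natAbs = ∏ _i : Fin k, ∑ j ∈ Finset.Icc (-(r:ℤ)) r, x ^ j.natAbs := by
    rw [Finset.prod_univ_sum]
  have h4 : ∑ j ∈ Finset.Icc (-(r:ℤ)) r, x ^ j.natAbs ≤ (1 + x) / (1 - x) := by
    have hg : ∀ m : ℕ, ∑ j ∈ Finset.range m, x ^ j ≤ 1 / (1 - x) := by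
      intro m
      have h1x : (0:ℝ) < 1 - x := by linarith
      rw [geom_sum_eq hx1.ne, le_div_iff₀ h1x]
      have hne : x - 1 ≠ 0 := by linarith
      have : (x ^ m - 1) / (x - 1) * (1 - x) = 1 - x ^ m := by
        field_simp
        ring
      rw [this]
      have : 0 < x ^ m := by positivity
      linarith
    have hs : ∑ j ∈ Finset.Icc (-(r:ℤ)) r, x ^ j.natAbs
        ≤ ∑ j ∈ (Finset.range (r+1)).image (fun j : ℕ => (j:ℤ)), x ^ j.natAbs
          + ∑ j ∈ (Finset.range r).image (fun j : ℕ => -((j:ℤ)+1)), x ^ j.natAbs := by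
      rw [← Finset.sum_union_inter]
      have hsub : Finset.Icc (-(r:ℤ)) r ⊆ (Finset.range (r+1)).image (fun j : ℕ => (j:ℤ)) ∪
          (Finset.range r).image (fun j : ℕ => -((j:ℤ)+1)) := by
        intro j hj
        simp only [Finset.mem_Icc] at hj
        simp only [Finset.mem_union, Finset.mem_image, Finset.mem_range]
        rcases le_or_gt 0 j with h0 | h0
        · left
          exact ⟨j.toNat, by omega, by omega⟩
        · right
          exact ⟨(-j-1).toNat, by omega, by omega⟩
      have := Finset.sum_le_sum_of_subset_of_nonneg (f := fun j : ℤ => x ^ j.natAbs) hsub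
        (fun j _ _ => by positivity)
      have h5 : 0 ≤ ∑ j ∈ (Finset.range (r+1)).image (fun j : ℕ => (j:ℤ)) ∩
          (Finset.range r).image (fun j : ℕ => -((j:ℤ)+1)), x ^ j.natAbs :=
        Finset.sum_nonneg (fun j _ => by positivity)
      linarith
    have hs1 : ∑ j ∈ (Finset.range (r+1)).image (fun j : ℕ => (j:ℤ)), x ^ j.natAbs
        = ∑ j ∈ Finset.range (r+1), x ^ j := by
      rw [Finset.sum_image]
      · simp
      · intro a _ b _ hab
        simpa using hab
    have hs2 : ∑ j ∈ (Finset.range r).image (fun j : ℕ => -((j:ℤ)+1)), x ^ j.natAbs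
        = x * ∑ j ∈ Finset.range r, x ^ j := by
      rw [Finset.sum_image, Finset.mul_sum]
      · apply Finset.sum_congr rfl
        intro j _
        have : (-((j:ℤ)+1)).natAbs = j + 1 := by omega
        rw [this, pow_succ]
        ring
      · intro a _ b _ hab
        simp only [neg_inj, add_left_inj, Nat.cast_inj] at hab
        exact hab
    rw [hs1, hs2] at hs
    have h1x : (0:ℝ) < 1 - x := by linarith
    calc _ ≤ _ := hs
      _ ≤ 1 / (1 - x) + x * (1 / (1 - x)) := by
          gcongr
          · exact hg _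
          · exact hg _
      _ = (1 + x) / (1 - x) := by field_simp
  calc _ ≤ _ := h1
    _ ≤ _ := h2
    _ = _ := h3
    _ ≤ ∏ _i : Fin k, ((1 + x) / (1 - x)) := by
        apply Finset.prod_le_prod
        · intro i _
          exact Finset.sum_nonneg (fun j _ => by positivity)
        · intro i _
          exact h4
    _ = _ := by rw [Finset.prod_const, Finset.card_univ, Fintype.card_fin]

end Pool.Agent.H90.Cayley
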