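import Mathlib

/-!
Definitions for the typical distance in random Cayley graphs of finite Abelian groups.
-/

open Filter Topology

universe u

namespace Pool.Agent.H90.CayleyDefs

/-- Graph distance from `a` to `b` along the edge relation `r`: the least length of a walk
`a = p 0, p 1, ..., p m = b` with `r (p i) (p (i+1))` for all `i < m`, and `⊤` if there is none. -/
noncomputable def walkDist {V : Type u} (r : V → V → Prop) (a b : V) : ℕ∞ :=
  ⨅ (m : ℕ) (_ : ∃ p : ℕ → V, p 0 = a ∧ p m = b ∧ ∀ i < m, r (p i) (p (i + 1))), (m : ℕ∞)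

/-- Edges `a → a + z i` of the directed Cayley graph. -/
def dirEdge {G : Type u} [AddCommGroup G] {k : ℕ} (z : Fin k → G) (a b : G) : Prop :=
  ∃ i, b = a + z i

/-- Edges of the undirected Cayley graph (generators `z i` and `- z i`). -/
def undirEdge {G : Type u} [AddCommGroup G] {k : ℕ} (z : Fin k → G) (a b : G) : Prop :=
  ∃ i, b = a + z i ∨ b = a - z i

/-- Probability of the event `E` under the uniform distribution on the finite type `Ω`. -/
noncomputable def unifProb {Ω : Type u} (E : Set Ω) : ℝ := (Nat.card E : ℝ) / (Nat.card Ω : ℝ)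

/-- The (possibly infinite) distance `δ` is finite and `|δ / D - 1| ≤ ε`. -/
def Near (δ : ℕ∞) (D ε : ℝ) : Prop := ∃ m : ℕ, δ = m ∧ |(m : ℝ) / D - 1| ≤ ε

/-- The typical distance statistic of the random Cayley graph (with `k N` generators `Z` drawn
independently and uniformly from `G N`, target `U` uniform and independent of `Z`, i.e. `(Z, U)`
uniform on `(Fin (k N) → G N) × G N`, edges given by `edge`) concentrates at the values `D N`,
which are positive for all large `N`. -/
def Concentrates (G : ℕ → Type u) [∀ N, AddCommGroup (G N)] (k : ℕ → ℕ)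
    (edge : ∀ N, (Fin (k N) → G N) → G N → G N → Prop) (D : ℕ → ℝ) : Prop :=
  (∀ᶠ N in atTop, 0 < D N) ∧ ∀ ε : ℝ, 0 < ε → Tendsto (fun N => unifProb
    {p : (Fin (k N) → G N) × G N | ¬ Near (walkDist (edge N p.1) 0 p.2) (D N) ε}) atTop (𝓝 0)

/-- The typical distance value in the directed case. -/
noncomputable def dirValue (k n : ℕ) : ℝ := k * (n : ℝ) ^ (1 / (k : ℝ)) / Real.exp 1

/-- The typical distance value in the undirected case. -/
noncomputable def undirValue (k n : ℕ) : ℝ := k * (n : ℝ) ^ (1 / (k : ℝ)) / (2 * Real.exp 1)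

end Pool.Agent.H90.CayleyDefs
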