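import Pool.Agent.H90.CayleyCount

/-!
Random evaluation of words in a finite Abelian group: the second moment inequality.
-/

open Finset

namespace Pool.Agent.H90.Cayley

variable {G : Type*} [AddCommGroup G]

/-- Value of the word with exponent vector `w` at the generators `z`. -/
def ev {k : ℕ} (z : Fin k → G) (w : Fin k → ℤ) : G := ∑ i, w i • z i

/-- Evaluation of a fixed exponent vector, as a homomorphism in the generators. -/
def evHom {k : ℕ} (w : Fin k → ℤ) : (Fin k → G) →+ G where
  toFun z := ev z w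
  map_zero' := by simp [ev]
  map_add' z z' := by simp [ev, Finset.sum_add_distrib]

/-- The subgroup `g G`. -/
def mulRange (G : Type*) [AddCommGroup G] (g : ℕ) : AddSubgroup G :=
  (nsmulAddMonoidHom (α := G) g).range

lemma mem_mulRange {g : ℕ} {x : G} : x ∈ mulRange G g ↔ ∃ y : G, g • y = x := by
  simp [mulRange, AddMonoidHom.mem_range]

lemma ev_sub {k : ℕ} (z : Fin k → G) (w w' : Fin k → ℤ) :
    ev z (fun i => w i - w' i) = ev z w - ev z w' := by
  simp [ev, sub_smul, Finset.sum_sub_distrib]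

lemma mulRange_le_range {k : ℕ} (v : Fin k → ℤ) (g : ℕ)
    (hg : (g : ℤ) = Finset.univ.gcd v) :
    mulRange G g ≤ (evHom (G := G) v).range := by
  intro x hx
  obtain ⟨y, rfl⟩ := mem_mulRange.mp hx
  obtain ⟨c, hc⟩ := Finset.gcd_eq_sum_mul Finset.univ v
  refine ⟨fun i => c i • y, ?_⟩
  change ev (fun i => c i • y) v = g • y
  unfold ev
  have : ∀ i, v i • c i • y = (v i * c i) • y := by
    intro i
    rw [smul_smul]
  simp_rw [this]
  rw [← Finset.sum_smul, ← hc, ← hg]
  simp

/-- The index of `g G` in `G`, as a real number. -/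
noncomputable def T (G : Type*) [AddCommGroup G] (g : ℕ) : ℝ := ((mulRange G g).index : ℝ)

lemma T_nonneg (g : ℕ) : 0 ≤ T G g := by unfold T; positivity

lemma T_le_card [Finite G] (g : ℕ) : T G g ≤ Nat.card G := by
  unfold T
  have h := AddSubgroup.card_mul_index (mulRange G g)
  have h2 : 0 < Nat.card (mulRange G g) := Nat.card_pos
  have : (mulRange G g).index ≤ Nat.card G := by
    rw [← h]; exact Nat.le_mul_of_pos_left _ h2
  exact_mod_cast this

lemma exists_coeff (S : Finset G) (hS : AddSubgroup.closure (S : Set G) = ⊤) (x : G) :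
    ∃ c : S → ℤ, x = ∑ s, c s • (s : G) := by
  classical
  have hx : x ∈ AddSubgroup.closure (S : Set G) := by rw [hS]; trivial
  induction hx using AddSubgroup.closure_induction with
  | mem y hy =>
    refine ⟨Pi.single ⟨y, hy⟩ 1, ?_⟩
    rw [Finset.sum_eq_single ⟨y, hy⟩]
    · simp
    · intro b _ hb
      simp [hb]
    · simp
  | zero => exact ⟨0, by simp⟩
  | add a b _ _ ha hb =>
    obtain ⟨c, hc⟩ := ha
    obtain ⟨c', hc'⟩ := hb
    exact ⟨c + c', by rw [hc, hc']; simp [add_smul, Finset.sum_add_distrib]⟩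
  | neg a _ ha =>
    obtain ⟨c, hc⟩ := ha
    exact ⟨-c, by rw [hc]; simp⟩

lemma T_le_pow [Finite G] (g : ℕ) (hg : 0 < g) : T G g ≤ (g : ℝ) ^ (AddGroup.rank G) := by
  classical
  obtain ⟨S, hS1, hS2⟩ := AddGroup.rank_spec G
  unfold T
  rw [AddSubgroup.index_eq_card]
  have hsurj : Function.Surjective (fun r : S → Fin g =>
      (QuotientAddGroup.mk (∑ s, ((r s : ℕ)) • (s : G)) : G ⧸ mulRange G g)) := by
    intro q
    obtain ⟨x, rfl⟩ := QuotientAddGroup.mk_surjective q
    obtain ⟨c, hc⟩ := exists_coeff S hS2 x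
    have hg' : (0:ℤ) < g := by exact_mod_cast hg
    refine ⟨fun s => ⟨(c s % g).toNat, ?_⟩, ?_⟩
    · have h1 := Int.emod_nonneg (c s) hg'.ne'
      have h2 := Int.emod_lt_of_pos (c s) hg'
      omega
    · simp only
      rw [QuotientAddGroup.eq, mem_mulRange]
      refine ⟨∑ s, (c s / g) • (s : G), ?_⟩
      rw [hc, Finset.smul_sum, ← sub_eq_neg_add, ← Finset.sum_sub_distrib]
      apply Finset.sum_congr rfl
      intro s _
      have h1 := Int.emod_nonneg (c s) hg'.ne'
      have h3 := Int.mul_ediv_add_emod (c s) g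
      have e1 : (((c s % g).toNat : ℕ)) • (s : G) = (c s % g) • (s : G) := by
        rw [← natCast_zsmul, Int.toNat_of_nonneg h1]
      rw [e1, ← sub_smul, ← natCast_zsmul, smul_smul]
      congr 1
      linarith
  have h := Nat.card_le_card_of_surjective _ hsurj
  have h2 : Nat.card (S → Fin g) = g ^ (AddGroup.rank G) := by
    rw [Nat.card_fun]
    simp [hS1]
  rw [h2] at h
  exact_mod_cast h

lemma card_ker_le [Finite G] {k : ℕ} (v : Fin k → ℤ) (g : ℕ)
    (hg : (g : ℤ) = Finset.univ.gcd v) :
    (Nat.card G : ℝ) * (Nat.card (evHom (G := G) v).ker : ℝ) ≤ (Nat.card G : ℝ) ^ k * T G g := by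
  have h1 := AddSubgroup.card_mul_index (evHom (G := G) v).ker
  rw [AddSubgroup.index_ker] at h1
  have h2 := AddSubgroup.card_mul_index (mulRange G g)
  have h3 : Nat.card (mulRange G g) ≤ Nat.card (evHom (G := G) v).range :=
    AddSubgroup.card_le_of_le (mulRange_le_range v g hg)
  have h4 : Nat.card (Fin k → G) = Nat.card G ^ k := by
    rw [Nat.card_fun]; simp
  rw [h4] at h1
  unfold T
  rw [← h2]
  have h5 : Nat.card (mulRange G g) * (mulRange G g).index * Nat.card (evHom (G := G) v).ker ≤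
      Nat.card G ^ k * (mulRange G g).index := by
    rw [← h1]
    calc Nat.card (mulRange G g) * (mulRange G g).index * Nat.card (evHom (G := G) v).ker
        = Nat.card (mulRange G g) * ((mulRange G g).index * Nat.card (evHom (G := G) v).ker) := by
          ring
      _ ≤ Nat.card (evHom (G := G) v).range *
          ((mulRange G g).index * Nat.card (evHom (G := G) v).ker) :=
          Nat.mul_le_mul_right _ h3
      _ = _ := by ring
  rw [h2] at h5 ⊢
  exact_mod_cast h5

section second
variable [Fintype G] [DecidableEq G]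

/-- Number of pairs in `B` with the same value. -/
noncomputable def pairCount {k : ℕ} (B : Finset (Fin k → ℤ)) (z : Fin k → G) : ℕ :=
  ((B ×ˢ B).filter (fun p => ev z p.1 = ev z p.2)).card

omit [Fintype G] in
lemma card_sq_le {k : ℕ} (B : Finset (Fin k → ℤ)) (z : Fin k → G) :
    (B.card : ℝ) ^ 2 ≤ (B.image (ev z)).card * (pairCount B z : ℝ) := by
  set f : G → ℝ := fun x => ((B.filter (fun w => ev z w = x)).card : ℝ) with hf
  have h1 : (B.card : ℝ) = ∑ x ∈ B.image (ev z), f x := by
    rw [Finset.card_eq_sum_card_image (ev z) B]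
    simp [hf]
  have h2 : (pairCount B z : ℝ) = ∑ x ∈ B.image (ev z), f x ^ 2 := by
    unfold pairCount
    rw [Finset.card_filter, Finset.sum_product]
    push_cast
    have : ∀ w ∈ B, ∑ w' ∈ B, (if ev z w = ev z w' then (1:ℝ) else 0) = f (ev z w) := by
      intro w _
      simp only [hf]
      rw [Finset.card_filter]
      push_cast
      apply Finset.sum_congr rfl
      intro w' _
      simp [eq_comm]
    rw [Finset.sum_congr rfl this]
    rw [← Finset.sum_fiberwise_of_maps_to (t := B.image (ev z)) (g := ev z)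
      (fun w hw => Finset.mem_image_of_mem _ hw)]
    apply Finset.sum_congr rfl
    intro x _
    rw [Finset.sum_congr rfl (g := fun _ => f x)]
    · rw [Finset.sum_const, nsmul_eq_mul, sq]
    · intro w hw
      rw [(Finset.mem_filter.mp hw).2]
  rw [h1, h2]
  exact sq_sum_le_card_mul_sum_sq

/-- Failure count for one choice of generators. -/
lemma fail_le {k : ℕ} (B : Finset (Fin k → ℤ)) (z : Fin k → G) :
    (B.card : ℝ) ^ 2 * ((Fintype.card G : ℝ) - (B.image (ev z)).card) ≤
      (Fintype.card G : ℝ) * ((Fintype.card G : ℝ) * pairCount B z - (B.card : ℝ) ^ 2) := by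
  have h1 := card_sq_le B z
  have h2 : ((B.image (ev z)).card : ℝ) ≤ Fintype.card G := by
    exact_mod_cast Finset.card_le_univ _
  set n : ℝ := (Fintype.card G : ℝ)
  set s : ℝ := ((B.image (ev z)).card : ℝ)
  set b : ℝ := (B.card : ℝ)
  set P : ℝ := (pairCount B z : ℝ)
  have hs : 0 ≤ s := by positivity
  have hP : 0 ≤ P := by positivity
  have hn : 0 ≤ n := by positivity
  -- b^2 (n - s) ≤ n (n P - b^2)
  rcases hs.eq_or_lt with h0 | h0
  · rw [← h0] at h1 ⊢
    have : b ^ 2 = 0 := by nlinarith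
    rw [this]; nlinarith [mul_nonneg hn hP]
  · have h3 : 0 ≤ (n - s) := by linarith
    have h4 : b ^ 2 * (n - s) * s ≤ n * (n * P - b ^ 2) * s := by
      nlinarith [mul_nonneg hn (mul_nonneg hn (sub_nonneg.mpr h1)),
        mul_nonneg (mul_nonneg h3 h3) (sq_nonneg b)]
    exact le_of_mul_le_mul_right h4 h0

/-- Number of pairs (generators, target) such that the target is not reached from `B`. -/
noncomputable def failCount {k : ℕ} (G : Type*) [AddCommGroup G] [Fintype G] [DecidableEq G]
    (B : Finset (Fin k → ℤ)) : ℕ :=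
  ((Finset.univ : Finset ((Fin k → G) × G)).filter (fun p => p.2 ∉ B.image (ev p.1))).card

lemma failCount_eq {k : ℕ} (B : Finset (Fin k → ℤ)) :
    (failCount G B : ℝ) = ∑ z : Fin k → G, ((Fintype.card G : ℝ) - (B.image (ev z)).card) := by
  unfold failCount
  rw [Finset.card_filter, ← Finset.univ_product_univ, Finset.sum_product]
  push_cast
  apply Finset.sum_congr rfl
  intro z _
  have h : (∑ x : G, if x ∉ B.image (ev z) then (1:ℝ) else 0)
      = (((B.image (ev z))ᶜ).card : ℝ) := by
    have h0 : (B.image (ev z))ᶜ = Finset.univ.filter (fun x => x ∉ B.image (ev z)) := by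
      ext x; simp
    rw [h0, Finset.card_filter]
    push_cast
    rfl
  rw [h, Finset.card_compl, Nat.cast_sub (Finset.card_le_univ _)]

lemma sum_pairCount {k : ℕ} (B : Finset (Fin k → ℤ)) :
    (∑ z : Fin k → G, (pairCount B z : ℝ)) =
      ∑ p ∈ B ×ˢ B, (Nat.card (evHom (G := G) (fun i => p.1 i - p.2 i)).ker : ℝ) := by
  unfold pairCount
  have h1 : ∀ z : Fin k → G, (((B ×ˢ B).filter (fun p => ev z p.1 = ev z p.2)).card : ℝ)
      = ∑ p ∈ B ×ˢ B, if ev z p.1 = ev z p.2 then (1:ℝ) else 0 := by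
    intro z
    rw [Finset.card_filter]; push_cast; rfl
  simp_rw [h1]
  rw [Finset.sum_comm]
  apply Finset.sum_congr rfl
  intro p _
  have h2 : Nat.card (evHom (G := G) (fun i => p.1 i - p.2 i)).ker
      = ((Finset.univ : Finset (Fin k → G)).filter (fun z => ev z p.1 = ev z p.2)).card := by
    rw [← Nat.card_eq_finsetCard]
    apply Nat.card_congr
    apply Equiv.subtypeEquivRight
    intro z
    simp only [AddMonoidHom.mem_ker, Finset.mem_filter, Finset.mem_univ, true_and]
    change ev z (fun i => p.1 i - p.2 i) = 0 ↔ _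
    rw [ev_sub, sub_eq_zero]
  rw [h2, Finset.card_filter]
  push_cast
  rfl

end second

lemma T_one : T G 1 = 1 := by
  unfold T
  have : mulRange G 1 = ⊤ := by
    ext x
    simp [mem_mulRange]
  rw [this]
  simp

/-- Pairs in `B` congruent modulo `j`. -/
noncomputable def modPairs {k : ℕ} (B : Finset (Fin k → ℤ)) (j : ℕ) : ℕ :=
  ((B ×ˢ B).filter (fun p => ∀ i, (j:ℤ) ∣ p.1 i - p.2 i)).card

lemma ker_le_sum [Finite G] {k R : ℕ} (w w' : Fin k → ℤ)
    (hw : ∑ i, (w i).natAbs ≤ R) (hw' : ∑ i, (w' i).natAbs ≤ R) :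
    (Nat.card G : ℝ) * (Nat.card (evHom (G := G) (fun i => w i - w' i)).ker : ℝ) ≤
      (Nat.card G : ℝ) ^ k * ((Nat.card G : ℝ) * (if w = w' then 1 else 0) + 1 +
        ∑ j ∈ Finset.Icc 2 (2 * R), T G j * (if ∀ i, (j:ℤ) ∣ w i - w' i then 1 else 0)) := by
  have hsum : 0 ≤ ∑ j ∈ Finset.Icc 2 (2 * R), T G j *
      (if ∀ i, (j:ℤ) ∣ w i - w' i then (1:ℝ) else 0) := by
    apply Finset.sum_nonneg
    intro j _
    have := T_nonneg (G := G) j
    split_ifs <;> simp [this]
  have hn : (0:ℝ) ≤ (Nat.card G : ℝ) ^ k := by positivity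
  by_cases hww : w = w'
  · have h1 : (Nat.card (evHom (G := G) (fun i => w i - w' i)).ker : ℝ) ≤ (Nat.card G : ℝ) ^ k := by
      have h2 : Nat.card (evHom (G := G) (fun i => w i - w' i)).ker ≤ Nat.card (Fin k → G) :=
        Nat.card_le_card_of_injective _ Subtype.val_injective
      have h4 : Nat.card (Fin k → G) = Nat.card G ^ k := by
        rw [Nat.card_fun]; simp
      rw [h4] at h2
      exact_mod_cast h2
    have h5 : (0:ℝ) ≤ (Nat.card G : ℝ) := by positivity
    rw [if_pos hww]
    nlinarith [mul_le_mul_of_nonneg_left h1 h5, mul_nonneg hn hsum]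
  · rw [if_neg hww]
    obtain ⟨i0, hi0⟩ := Function.ne_iff.mp hww
    set v : Fin k → ℤ := fun i => w i - w' i with hv
    have hgd : (Finset.univ.gcd v) ∣ v i0 := Finset.gcd_dvd (Finset.mem_univ _)
    have hv0 : v i0 ≠ 0 := by simp only [hv]; omega
    have hg0 : Finset.univ.gcd v ≠ 0 := fun h => hv0 (by rw [h] at hgd; exact zero_dvd_iff.mp hgd)
    have hnorm : (((Finset.univ.gcd v).natAbs : ℕ) : ℤ) = Finset.univ.gcd v := by
      rw [Int.natCast_natAbs, Int.abs_eq_normalize, Finset.normalize_gcd]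
    set g : ℕ := (Finset.univ.gcd v).natAbs with hg
    have hgpos : 0 < g := Int.natAbs_pos.mpr hg0
    have hgle : g ≤ 2 * R := by
      have h1 : g ≤ (v i0).natAbs := by
        apply Nat.le_of_dvd (Int.natAbs_pos.mpr hv0)
        rw [hg]
        exact Int.natAbs_dvd_natAbs.mpr hgd
      have h2 : (v i0).natAbs ≤ (w i0).natAbs + (w' i0).natAbs := Int.natAbs_sub_le _ _
      have h3 : (w i0).natAbs ≤ ∑ i, (w i).natAbs :=
        Finset.single_le_sum (f := fun j => (w j).natAbs) (fun _ _ => Nat.zero_le _)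
          (Finset.mem_univ i0)
      have h4 : (w' i0).natAbs ≤ ∑ i, (w' i).natAbs :=
        Finset.single_le_sum (f := fun j => (w' j).natAbs) (fun _ _ => Nat.zero_le _)
          (Finset.mem_univ i0)
      omega
    have hk := card_ker_le (G := G) v g hnorm
    refine hk.trans ?_
    apply mul_le_mul_of_nonneg_left _ hn
    rcases Nat.lt_or_ge 1 g with h1 | h1
    · have h2 : T G g * (if ∀ i, (g:ℤ) ∣ v i then (1:ℝ) else 0) ≤
          ∑ j ∈ Finset.Icc 2 (2 * R), T G j * (if ∀ i, (j:ℤ) ∣ w i - w' i then 1 else 0) := by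
        apply Finset.single_le_sum (f := fun j : ℕ => T G j *
          (if ∀ i, (j:ℤ) ∣ w i - w' i then (1:ℝ) else 0))
        · intro j _
          have := T_nonneg (G := G) j
          split_ifs <;> simp [this]
        · rw [Finset.mem_Icc]; omega
      have h3 : ∀ i, (g:ℤ) ∣ v i := by
        intro i
        rw [hnorm]
        exact Finset.gcd_dvd (Finset.mem_univ _)
      rw [if_pos h3] at h2
      linarith
    · have : g = 1 := by omega
      rw [this, T_one]
      linarith

/-- The second moment bound. -/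
theorem fail_bound [Fintype G] [DecidableEq G] {k R : ℕ} (B : Finset (Fin k → ℤ))
    (hR : ∀ w ∈ B, ∑ i, (w i).natAbs ≤ R) :
    (B.card : ℝ) ^ 2 * (failCount G B : ℝ) ≤ (Nat.card G : ℝ) ^ (k + 1) *
      ((Nat.card G : ℝ) * B.card + ∑ j ∈ Finset.Icc 2 (2 * R), T G j * (modPairs B j : ℝ)) := by
  have hcard : (Fintype.card G : ℝ) = (Nat.card G : ℝ) := by rw [Nat.card_eq_fintype_card]
  have h1 : (B.card : ℝ) ^ 2 * (failCount G B : ℝ) ≤
      ∑ z : Fin k → G, (Nat.card G : ℝ) * ((Nat.card G : ℝ) * pairCount B z - (B.card : ℝ) ^ 2) := by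
    rw [failCount_eq, Finset.mul_sum]
    apply Finset.sum_le_sum
    intro z _
    rw [← hcard]
    exact fail_le B z
  have h2 : ∑ z : Fin k → G, (Nat.card G : ℝ) *
        ((Nat.card G : ℝ) * pairCount B z - (B.card : ℝ) ^ 2)
      = (Nat.card G : ℝ) * ((∑ p ∈ B ×ˢ B, (Nat.card G : ℝ) *
          (Nat.card (evHom (G := G) (fun i => p.1 i - p.2 i)).ker : ℝ))
          - (Nat.card G : ℝ) ^ k * (B.card : ℝ) ^ 2) := by
    rw [← Finset.mul_sum, Finset.sum_sub_distrib, ← Finset.mul_sum, sum_pairCount,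
      ← Finset.mul_sum]
    congr 2
    rw [Finset.sum_const, Finset.card_univ, nsmul_eq_mul]
    congr 1
    rw [← Nat.card_eq_fintype_card, Nat.card_fun]
    simp
  have h3 : ∑ p ∈ B ×ˢ B, (Nat.card G : ℝ) *
          (Nat.card (evHom (G := G) (fun i => p.1 i - p.2 i)).ker : ℝ)
      ≤ (Nat.card G : ℝ) ^ k * ((Nat.card G : ℝ) * B.card + (B.card : ℝ) ^ 2 +
        ∑ j ∈ Finset.Icc 2 (2 * R), T G j * (modPairs B j : ℝ)) := by
    calc ∑ p ∈ B ×ˢ B, (Nat.card G : ℝ) *
          (Nat.card (evHom (G := G) (fun i => p.1 i - p.2 i)).ker : ℝ)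
        ≤ ∑ p ∈ B ×ˢ B, (Nat.card G : ℝ) ^ k * ((Nat.card G : ℝ) *
            (if p.1 = p.2 then 1 else 0) + 1 +
          ∑ j ∈ Finset.Icc 2 (2 * R), T G j *
            (if ∀ i, (j:ℤ) ∣ p.1 i - p.2 i then 1 else 0)) := by
          apply Finset.sum_le_sum
          intro p hp
          rw [Finset.mem_product] at hp
          exact ker_le_sum p.1 p.2 (hR _ hp.1) (hR _ hp.2)
      _ = _ := by
          rw [← Finset.mul_sum, Finset.sum_add_distrib, Finset.sum_add_distrib]
          congr 1
          congr 1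
          · congr 1
            · rw [← Finset.mul_sum]
              congr 1
              rw [Finset.sum_product]
              simp
            · simp [sq]
          · rw [Finset.sum_comm]
            apply Finset.sum_congr rfl
            intro j _
            rw [← Finset.mul_sum]
            congr 1
            unfold modPairs
            rw [Finset.card_filter]
            push_cast
            rfl
  rw [h2] at h1
  refine h1.trans ?_
  have hn : (0:ℝ) ≤ (Nat.card G : ℝ) := by positivity
  calc _ ≤ (Nat.card G : ℝ) * (((Nat.card G : ℝ) ^ k * ((Nat.card G : ℝ) * B.card +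
          (B.card : ℝ) ^ 2 + ∑ j ∈ Finset.Icc 2 (2 * R), T G j * (modPairs B j : ℝ)))
          - (Nat.card G : ℝ) ^ k * (B.card : ℝ) ^ 2) := by
        apply mul_le_mul_of_nonneg_left _ hn
        linarith
    _ = _ := by ring

end Pool.Agent.H90.Cayley
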