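import Pool.Agent.H90.CayleyDefs
import Pool.Agent.H90.CayleyAsymp

/-!
Link between walks in Cayley graphs and words, and concentration of the typical distance.
-/

open Filter Topology

universe u

namespace Pool.Agent.H90.CayleyMain

open Pool.Agent.H90.Cayley Pool.Agent.H90.CayleyDefs

section walks

variable {G : Type u} [AddCommGroup G] {k : ℕ}

lemma ev_add_single (z : Fin k → G) (w : Fin k → ℤ) (i : Fin k) (c : ℤ) :
    ev z (fun j => w j + (if j = i then c else 0)) = ev z w + c • z i := by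
  unfold ev
  simp only [add_smul, Finset.sum_add_distrib, ite_smul, zero_smul]
  congr 1
  simp

lemma walk_dir_word (z : Fin k → G) (m : ℕ) (a b : G)
    (h : ∃ p : ℕ → G, p 0 = a ∧ p m = b ∧ ∀ i < m, dirEdge z (p i) (p (i + 1))) :
    ∃ w ∈ ballD k m, b = a + ev z w := by
  induction m generalizing b with
  | zero =>
    obtain ⟨p, h1, h2, _⟩ := h
    refine ⟨fun _ => 0, ?_, ?_⟩
    · rw [mem_ballD]; simp
    · rw [← h2, ← h1]; simp [ev]
  | succ m ih =>
    obtain ⟨p, h1, h2, h3⟩ := h
    obtain ⟨w, hw, hb⟩ := ih (p m) ⟨p, h1, rfl, fun i hi => h3 i (by omega)⟩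
    obtain ⟨i, hi⟩ := h3 m (by omega)
    rw [mem_ballD] at hw
    refine ⟨fun j => w j + (if j = i then 1 else 0), ?_, ?_⟩
    · rw [mem_ballD]
      refine ⟨?_, fun j => ?_⟩
      · calc ∑ j, (w j + (if j = i then (1:ℤ) else 0)).natAbs
            ≤ ∑ j, ((w j).natAbs + (if j = i then 1 else 0)) := by
              apply Finset.sum_le_sum
              intro j _
              split_ifs <;> omega
          _ ≤ m + 1 := by
              rw [Finset.sum_add_distrib]
              simp
              exact hw.1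
      · have := hw.2 j
        split_ifs <;> omega
    · rw [ev_add_single, ← h2, hi, hb]
      simp [add_assoc]

lemma walk_undir_word (z : Fin k → G) (m : ℕ) (a b : G)
    (h : ∃ p : ℕ → G, p 0 = a ∧ p m = b ∧ ∀ i < m, undirEdge z (p i) (p (i + 1))) :
    ∃ w ∈ ballU k m, b = a + ev z w := by
  induction m generalizing b with
  | zero =>
    obtain ⟨p, h1, h2, _⟩ := h
    refine ⟨fun _ => 0, ?_, ?_⟩
    · rw [mem_ballU]; simp
    · rw [← h2, ← h1]; simp [ev]
  | succ m ih =>
    obtain ⟨p, h1, h2, h3⟩ := h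
    obtain ⟨w, hw, hb⟩ := ih (p m) ⟨p, h1, rfl, fun i hi => h3 i (by omega)⟩
    obtain ⟨i, hi⟩ := h3 m (by omega)
    rw [mem_ballU] at hw
    rcases hi with hi | hi
    · refine ⟨fun j => w j + (if j = i then 1 else 0), ?_, ?_⟩
      · rw [mem_ballU]
        calc ∑ j, (w j + (if j = i then (1:ℤ) else 0)).natAbs
              ≤ ∑ j, ((w j).natAbs + (if j = i then 1 else 0)) := by
                apply Finset.sum_le_sum
                intro j _
                split_ifs <;> omega
            _ ≤ m + 1 := by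
                rw [Finset.sum_add_distrib]
                simp
                exact hw
      · rw [ev_add_single, ← h2, hi, hb]
        simp [add_assoc]
    · refine ⟨fun j => w j + (if j = i then -1 else 0), ?_, ?_⟩
      · rw [mem_ballU]
        calc ∑ j, (w j + (if j = i then (-1:ℤ) else 0)).natAbs
              ≤ ∑ j, ((w j).natAbs + (if j = i then 1 else 0)) := by
                apply Finset.sum_le_sum
                intro j _
                split_ifs <;> omega
            _ ≤ m + 1 := by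
                rw [Finset.sum_add_distrib]
                simp
                exact hw
      · rw [ev_add_single, ← h2, hi, hb]
        simp [add_assoc, sub_eq_add_neg]

omit [AddCommGroup G] in
/-- Extending a walk by one step. -/
lemma walk_snoc (r : G → G → Prop) (m : ℕ) (a b c : G)
    (h : ∃ p : ℕ → G, p 0 = a ∧ p m = b ∧ ∀ i < m, r (p i) (p (i + 1))) (hbc : r b c) :
    ∃ p : ℕ → G, p 0 = a ∧ p (m + 1) = c ∧ ∀ i < m + 1, r (p i) (p (i + 1)) := by
  obtain ⟨p, h1, h2, h3⟩ := h
  refine ⟨fun i => if i ≤ m then p i else c, by simp [h1], by simp, ?_⟩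
  intro i hi
  rcases Nat.lt_or_ge i m with h4 | h4
  · have e1 : i ≤ m := by omega
    have e2 : i + 1 ≤ m := by omega
    simp only [e1, e2, if_true]
    exact h3 i h4
  · have e1 : i = m := by omega
    subst e1
    simp only [le_refl, if_true]
    have e2 : ¬ (i + 1 ≤ i) := by omega
    simp only [e2, if_false, h2]
    exact hbc

lemma word_walk_undir (z : Fin k → G) (m : ℕ) (a : G) (w : Fin k → ℤ)
    (hw : ∑ i, (w i).natAbs = m) :
    ∃ p : ℕ → G, p 0 = a ∧ p m = a + ev z w ∧ ∀ i < m, undirEdge z (p i) (p (i + 1)) := by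
  induction m generalizing w with
  | zero =>
    refine ⟨fun _ => a, rfl, ?_, by simp⟩
    have : w = fun _ => 0 := by
      funext i
      have h1 := (Finset.sum_eq_zero_iff.mp hw) i (Finset.mem_univ i)
      simpa using h1
    rw [this]; simp [ev]
  | succ m ih =>
    obtain ⟨i, hi⟩ : ∃ i, w i ≠ 0 := by
      by_contra hcon
      push Not at hcon
      simp [hcon] at hw
    rcases lt_or_gt_of_ne hi with h0 | h0
    · have hsum : ∑ j, (w j + (if j = i then 1 else 0)).natAbs = m := by
        have h1 : ∑ j, (w j).natAbs =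
            ∑ j, ((w j + (if j = i then 1 else 0)).natAbs + (if j = i then 1 else 0)) := by
          apply Finset.sum_congr rfl
          intro j _
          split_ifs with hj
          · subst hj; omega
          · simp
        rw [h1, Finset.sum_add_distrib] at hw
        simp at hw
        exact hw
      obtain h := ih _ hsum
      have := walk_snoc (undirEdge z) m a _ (a + ev z w) h ?_
      · exact this
      · refine ⟨i, Or.inr ?_⟩
        rw [ev_add_single]
        simp
        abel
    · have hsum : ∑ j, (w j + (if j = i then -1 else 0)).natAbs = m := by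
        have h1 : ∑ j, (w j).natAbs =
            ∑ j, ((w j + (if j = i then -1 else 0)).natAbs + (if j = i then 1 else 0)) := by
          apply Finset.sum_congr rfl
          intro j _
          split_ifs with hj
          · subst hj; omega
          · simp
        rw [h1, Finset.sum_add_distrib] at hw
        simp at hw
        exact hw
      obtain h := ih _ hsum
      have := walk_snoc (undirEdge z) m a _ (a + ev z w) h ?_
      · exact this
      · refine ⟨i, Or.inl ?_⟩
        rw [ev_add_single]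
        simp
        abel

lemma word_walk_dir (z : Fin k → G) (m : ℕ) (a : G) (w : Fin k → ℤ)
    (hw : ∑ i, (w i).natAbs = m) (hw0 : ∀ i, 0 ≤ w i) :
    ∃ p : ℕ → G, p 0 = a ∧ p m = a + ev z w ∧ ∀ i < m, dirEdge z (p i) (p (i + 1)) := by
  induction m generalizing w with
  | zero =>
    refine ⟨fun _ => a, rfl, ?_, by simp⟩
    have : w = fun _ => 0 := by
      funext i
      have h1 := (Finset.sum_eq_zero_iff.mp hw) i (Finset.mem_univ i)
      simpa using h1
    rw [this]; simp [ev]
  | succ m ih =>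
    obtain ⟨i, hi⟩ : ∃ i, w i ≠ 0 := by
      by_contra hcon
      push Not at hcon
      simp [hcon] at hw
    have h0 : 0 < w i := lt_of_le_of_ne (hw0 i) (Ne.symm hi)
    have hsum : ∑ j, (w j + (if j = i then -1 else 0)).natAbs = m := by
      have h1 : ∑ j, (w j).natAbs =
          ∑ j, ((w j + (if j = i then -1 else 0)).natAbs + (if j = i then 1 else 0)) := by
        apply Finset.sum_congr rfl
        intro j _
        split_ifs with hj
        · subst hj; omega
        · simp
      rw [h1, Finset.sum_add_distrib] at hw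
      simp at hw
      exact hw
    have hnn : ∀ j, 0 ≤ w j + (if j = i then -1 else 0) := by
      intro j
      have := hw0 j
      split_ifs with hj
      · subst hj; omega
      · omega
    obtain h := ih _ hsum hnn
    have := walk_snoc (dirEdge z) m a _ (a + ev z w) h ?_
    · exact this
    · refine ⟨i, ?_⟩
      rw [ev_add_single]
      simp
      abel

end walks

/-- Abstract link between walks and words. -/
def Linked {G : Type u} [AddCommGroup G] {k : ℕ} (z : Fin k → G) (r : G → G → Prop)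
    (B : ℕ → Finset (Fin k → ℤ)) : Prop :=
  (∀ (m : ℕ) (b : G), (∃ p : ℕ → G, p 0 = 0 ∧ p m = b ∧ ∀ i < m, r (p i) (p (i + 1))) →
    ∃ w ∈ B m, b = ev z w) ∧
  (∀ (m : ℕ) (w : Fin k → ℤ), w ∈ B m → ∃ m' ≤ m, ∃ p : ℕ → G, p 0 = 0 ∧ p m' = ev z w ∧
    ∀ i < m', r (p i) (p (i + 1)))

lemma linked_dir {G : Type u} [AddCommGroup G] {k : ℕ} (z : Fin k → G) :
    Linked z (dirEdge z) (ballD k) := by
  refine ⟨fun m b h => ?_, fun m w hw => ?_⟩
  · obtain ⟨w, hw, hb⟩ := walk_dir_word z m 0 b h
    exact ⟨w, hw, by rw [hb, zero_add]⟩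
  · rw [mem_ballD] at hw
    refine ⟨∑ i, (w i).natAbs, hw.1, ?_⟩
    have := word_walk_dir z _ 0 w rfl hw.2
    rwa [zero_add] at this

lemma linked_undir {G : Type u} [AddCommGroup G] {k : ℕ} (z : Fin k → G) :
    Linked z (undirEdge z) (ballU k) := by
  refine ⟨fun m b h => ?_, fun m w hw => ?_⟩
  · obtain ⟨w, hw, hb⟩ := walk_undir_word z m 0 b h
    exact ⟨w, hw, by rw [hb, zero_add]⟩
  · rw [mem_ballU] at hw
    refine ⟨∑ i, (w i).natAbs, hw, ?_⟩
    have := word_walk_undir z _ 0 w rfl
    rwa [zero_add] at this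

lemma walkDist_eq_of_reach {V : Type u} {r : V → V → Prop} {a b : V} {R : ℕ}
    (h : ∃ m' ≤ R, ∃ p : ℕ → V, p 0 = a ∧ p m' = b ∧ ∀ i < m', r (p i) (p (i + 1))) :
    ∃ m : ℕ, walkDist r a b = m ∧ m ≤ R ∧
      ∃ p : ℕ → V, p 0 = a ∧ p m = b ∧ ∀ i < m, r (p i) (p (i + 1)) := by
  classical
  obtain ⟨m', hm', hp'⟩ := h
  have hex : ∃ m : ℕ, ∃ p : ℕ → V, p 0 = a ∧ p m = b ∧ ∀ i < m, r (p i) (p (i + 1)) := ⟨m', hp'⟩
  refine ⟨Nat.find hex, ?_, (Nat.find_min' hex hp').trans hm', Nat.find_spec hex⟩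
  apply le_antisymm
  · exact iInf₂_le (Nat.find hex) (Nat.find_spec hex)
  · apply le_iInf₂
    intro m hm
    exact_mod_cast Nat.find_min' hex hm

/-- If the target is reached by words of length at most `(1 + ε) D` but not by words of length at
most `(1 - ε) D`, then the distance is near `D`. -/
lemma near_of {G : Type u} [AddCommGroup G] {k : ℕ} {z : Fin k → G} {r : G → G → Prop}
    {B : ℕ → Finset (Fin k → ℤ)} (hl : Linked z r B) {x : G} {D ε : ℝ} (hD : 0 < D)
    (hε : 0 < ε)
    (h1 : ∃ w ∈ B ⌊(1 + ε) * D⌋₊, ev z w = x)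
    (h2 : ¬ ∃ w ∈ B ⌊(1 - ε) * D⌋₊, ev z w = x)
    (hmono : ∀ m m' : ℕ, m ≤ m' → B m ⊆ B m') :
    Near (walkDist r 0 x) D ε := by
  obtain ⟨w, hw, hx⟩ := h1
  obtain ⟨m', hm', hp⟩ := hl.2 _ w hw
  rw [hx] at hp
  obtain ⟨m, hm1, hm2, hm3⟩ := walkDist_eq_of_reach ⟨m', hm', hp⟩
  refine ⟨m, hm1, ?_⟩
  have h3 : (m:ℝ) ≤ (1 + ε) * D := by
    have := Nat.floor_le (show 0 ≤ (1 + ε) * D by positivity)
    calc (m:ℝ) ≤ (⌊(1 + ε) * D⌋₊ : ℝ) := by exact_mod_cast hm2
      _ ≤ _ := this
  have h4 : (1 - ε) * D ≤ m := by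
    by_contra hcon
    have h5 : (m:ℝ) ≤ (1 - ε) * D := (not_le.mp hcon).le
    have h6 : m ≤ ⌊(1 - ε) * D⌋₊ := Nat.le_floor h5
    obtain ⟨w', hw', hb'⟩ := hl.1 m x hm3
    exact h2 ⟨w', hmono _ _ h6 hw', hb'.symm⟩
  rw [abs_le]
  constructor
  · have : 1 - ε ≤ (m:ℝ) / D := by rw [le_div_iff₀ hD]; exact h4
    linarith
  · have : (m:ℝ) / D ≤ 1 + ε := by rw [div_le_iff₀ hD]; exact h3
    linarith

/-- Bad event probability bound. -/
lemma unifProb_bad_le {G : Type u} [AddCommGroup G] [Fintype G] [DecidableEq G] {k : ℕ}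
    {r : (Fin k → G) → G → G → Prop} {B : ℕ → Finset (Fin k → ℤ)}
    (hl : ∀ z, Linked z (r z) B) {D ε : ℝ} (hD : 0 < D) (hε : 0 < ε)
    (hmono : ∀ m m' : ℕ, m ≤ m' → B m ⊆ B m') :
    unifProb {p : (Fin k → G) × G | ¬ Near (walkDist (r p.1) 0 p.2) D ε} ≤
      (failCount G (B ⌊(1 + ε) * D⌋₊) : ℝ) / (Nat.card G : ℝ) ^ (k + 1) +
      ((B ⌊(1 - ε) * D⌋₊).card : ℝ) / (Nat.card G : ℝ) := by
  classical
  set S1 : Finset ((Fin k → G) × G) :=
    Finset.univ.filter (fun p => p.2 ∉ (B ⌊(1 + ε) * D⌋₊).image (ev p.1)) with hS1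
  set S2 : Finset ((Fin k → G) × G) :=
    Finset.univ.filter (fun p => p.2 ∈ (B ⌊(1 - ε) * D⌋₊).image (ev p.1)) with hS2
  have hsub : {p : (Fin k → G) × G | ¬ Near (walkDist (r p.1) 0 p.2) D ε} ⊆
      ((S1 ∪ S2 : Finset _) : Set ((Fin k → G) × G)) := by
    intro p hp
    by_contra hcon
    simp only [hS1, hS2, Finset.coe_union, Finset.coe_filter, Finset.mem_univ, true_and,
      Set.mem_union, Set.mem_ofPred_eq, not_or, not_not] at hcon
    apply hp
    apply near_of (hl p.1) hD hε _ _ hmono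
    · obtain ⟨w, hw, h⟩ := Finset.mem_image.mp hcon.1
      exact ⟨w, hw, h⟩
    · rintro ⟨w, hw, h⟩
      exact hcon.2 (Finset.mem_image.mpr ⟨w, hw, h⟩)
  have hcard : Nat.card {p : (Fin k → G) × G | ¬ Near (walkDist (r p.1) 0 p.2) D ε} ≤
      S1.card + S2.card := by
    calc _ ≤ Nat.card ((S1 ∪ S2 : Finset _) : Set ((Fin k → G) × G)) :=
          Nat.card_mono (Finset.finite_toSet _) hsub
      _ = (S1 ∪ S2).card := by simp
      _ ≤ _ := Finset.card_union_le _ _
  have hS2c : (S2.card : ℝ) ≤ (Nat.card G : ℝ) ^ k * ((B ⌊(1 - ε) * D⌋₊).card : ℝ) := by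
    have : S2.card = ∑ z : Fin k → G, ((B ⌊(1 - ε) * D⌋₊).image (ev z)).card := by
      rw [hS2, Finset.card_filter, ← Finset.univ_product_univ, Finset.sum_product]
      apply Finset.sum_congr rfl
      intro z _
      rw [← Finset.card_filter]
      congr 1
      ext x
      simp
    rw [this]
    have h2 : ∑ z : Fin k → G, ((B ⌊(1 - ε) * D⌋₊).image (ev z)).card ≤
        ∑ _z : Fin k → G, (B ⌊(1 - ε) * D⌋₊).card :=
      Finset.sum_le_sum (fun z _ => Finset.card_image_le)
    have h3 : ∑ _z : Fin k → G, (B ⌊(1 - ε) * D⌋₊).card =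
        (Nat.card G) ^ k * (B ⌊(1 - ε) * D⌋₊).card := by
      rw [Finset.sum_const, Finset.card_univ, smul_eq_mul, ← Nat.card_eq_fintype_card,
        Nat.card_fun]
      simp
    rw [h3] at h2
    exact_mod_cast h2
  have hS1c : (S1.card : ℝ) = (failCount G (B ⌊(1 + ε) * D⌋₊) : ℝ) := by
    rfl
  have hn0 : (0:ℝ) < (Nat.card G : ℝ) := by
    have : 0 < Nat.card G := Nat.card_pos
    exact_mod_cast this
  have htot : (Nat.card ((Fin k → G) × G) : ℝ) = (Nat.card G : ℝ) ^ (k + 1) := by
    rw [Nat.card_prod, Nat.card_fun]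
    push_cast
    simp [pow_succ]
  unfold unifProb
  rw [htot]
  calc (Nat.card {p : (Fin k → G) × G | ¬ Near (walkDist (r p.1) 0 p.2) D ε} : ℝ) /
        (Nat.card G : ℝ) ^ (k + 1)
      ≤ ((S1.card : ℝ) + (S2.card : ℝ)) / (Nat.card G : ℝ) ^ (k + 1) := by
        apply div_le_div_of_nonneg_right _ (by positivity)
        exact_mod_cast hcard
    _ ≤ ((failCount G (B ⌊(1 + ε) * D⌋₊) : ℝ) +
          (Nat.card G : ℝ) ^ k * ((B ⌊(1 - ε) * D⌋₊).card : ℝ)) / (Nat.card G : ℝ) ^ (k + 1) := by
        apply div_le_div_of_nonneg_right _ (by positivity)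
        rw [hS1c]
        linarith
    _ = _ := by
        rw [add_div]
        congr 1
        rw [pow_succ]
        field_simp

lemma near_mono {δ : ℕ∞} {D ε ε' : ℝ} (h : ε' ≤ ε) (hn : Near δ D ε') : Near δ D ε := by
  obtain ⟨m, h1, h2⟩ := hn
  exact ⟨m, h1, h2.trans h⟩

/-- General form of the main theorem, for a family of words. -/
theorem concentrates_of {G : ℕ → Type u} [∀ N, AddCommGroup (G N)] [∀ N, Finite (G N)]
    {k : ℕ → ℕ} {s : ℝ} (B : ∀ k : ℕ, ℕ → Finset (Fin k → ℤ))
    (edge : ∀ N, (Fin (k N) → G N) → G N → G N → Prop)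
    (hl : ∀ N z, Linked z (edge N z) (B (k N)))
    (hmono : ∀ k, ∀ m m' : ℕ, m ≤ m' → B k m ⊆ B k m')
    (hB1 : ∀ k R, s ^ k * (R.choose k : ℝ) ≤ ((B k R).card : ℝ))
    (hB2 : ∀ k R, ((B k R).card : ℝ) ≤ s ^ k * ((R + k).choose k : ℝ))
    (hB3 : ∀ (k R g : ℕ), ∀ w ∈ B k R, ∀ r : Fin k → Fin g,
      (fun i => w i + ((r i : ℕ) : ℤ)) ∈ B k (R + k * g))
    (hB4 : ∀ k R, ∀ w ∈ B k R, ∑ i, (w i).natAbs ≤ R)
    (hs1 : 1 ≤ s) (hs2 : s ≤ 2)
    (hcard : Tendsto (fun N => Nat.card (G N)) atTop atTop)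
    (hk : Tendsto k atTop atTop)
    (hklog : Tendsto (fun N => (k N : ℝ) / Real.log (Nat.card (G N))) atTop (𝓝 0))
    (hgen : ∃ c : ℝ, 0 < c ∧ ∀ᶠ N in atTop,
      c * (k N : ℝ) ≤ (k N : ℝ) - (AddGroup.rank (G N) : ℝ)) :
    Concentrates G k edge
      (fun N => k N * (Nat.card (G N) : ℝ) ^ (1 / (k N : ℝ)) / (s * Real.exp 1)) := by
  classical
  obtain ⟨c, hc, hgen⟩ := hgen
  have : ∀ N, Fintype (G N) := fun N => Fintype.ofFinite _
  set L : ℕ → ℝ := fun N => (Nat.card (G N) : ℝ) ^ (1 / (k N : ℝ)) with hLdef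
  have hs0 : 0 < s := by linarith
  have he0 : 0 < Real.exp 1 := Real.exp_pos 1
  have hn : ∀ᶠ N in atTop, (Nat.card (G N) : ℝ) = L N ^ (k N) := by
    filter_upwards [hk.eventually_ge_atTop 1] with N h1
    have hk0 : (k N : ℝ) ≠ 0 := by
      have : k N ≠ 0 := by omega
      exact_mod_cast this
    rw [hLdef]
    simp only
    rw [← Real.rpow_natCast, ← Real.rpow_mul (by positivity), one_div,
      inv_mul_cancel₀ hk0, Real.rpow_one]
  have hL : Tendsto L atTop atTop := by
    have h1 : ∀ᶠ N in atTop, (k N : ℝ) / Real.log (Nat.card (G N)) ∈ Set.Ioi (0:ℝ) := by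
      filter_upwards [hk.eventually_ge_atTop 1, hcard.eventually_ge_atTop 2] with N h1 h2
      have h3 : (0:ℝ) < k N := by exact_mod_cast h1
      have h4 : 0 < Real.log (Nat.card (G N)) := by
        apply Real.log_pos
        exact_mod_cast h2
      exact div_pos h3 h4
    have h2 : Tendsto (fun N => ((k N : ℝ) / Real.log (Nat.card (G N)))⁻¹) atTop atTop := by
      apply tendsto_inv_nhdsGT_zero.comp
      exact tendsto_nhdsWithin_iff.mpr ⟨hklog, h1⟩
    have h3 := Real.tendsto_exp_atTop.comp h2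
    refine h3.congr' ?_
    filter_upwards [hcard.eventually_ge_atTop 2] with N h4
    have h5 : (0:ℝ) < (Nat.card (G N) : ℝ) := by
      have : 0 < Nat.card (G N) := by omega
      exact_mod_cast this
    rw [hLdef]
    simp only [Function.comp_apply]
    rw [Real.rpow_def_of_pos h5]
    congr 1
    rw [inv_div]
    ring
  have hd : ∀ᶠ N in atTop, ((AddGroup.rank (G N) : ℕ) : ℝ) ≤ (1 - c) * k N := by
    filter_upwards [hgen] with N h1
    linarith
  refine ⟨?_, ?_⟩
  · filter_upwards [hk.eventually_ge_atTop 1, hL.eventually_gt_atTop 0] with N h1 h2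
    have hk0 : (0:ℝ) < k N := by exact_mod_cast h1
    have h3 : 0 < k N * L N / (s * Real.exp 1) := by positivity
    exact h3
  intro ε hε
  set ε' : ℝ := min ε (1/2) with hε'
  have hε'0 : 0 < ε' := lt_min hε (by norm_num)
  have hε'1 : ε' < 1 := lt_of_le_of_lt (min_le_right _ _) (by norm_num)
  have t1 := cover_tendsto (G := G) (k := k) (L := L) (s := s) (c := c) (ε := ε') B hB1 hB2 hB3
    hB4 hs1 hs2 hk hL hn hc hd hε'0 hε'1.le
  have t2 := short_tendsto (k := k) (L := L) (s := s) (ε := ε')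
    (n := fun N => (Nat.card (G N) : ℝ)) B hB2 hs1 hk hL hn hε'0 hε'1
  have t3 := t1.add t2
  rw [add_zero] at t3
  apply squeeze_zero' _ _ t3
  · filter_upwards with N
    unfold unifProb
    positivity
  · filter_upwards [hk.eventually_ge_atTop 1, hL.eventually_gt_atTop 0] with N h1 h2
    have hk0 : (0:ℝ) < k N := by exact_mod_cast h1
    have hD : 0 < k N * L N / (s * Real.exp 1) := by positivity
    have h3 := unifProb_bad_le (G := G N) (k := k N) (r := edge N) (B := B (k N)) (hl N) hD hε'0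
      (hmono _)
    refine le_trans ?_ h3
    unfold unifProb
    apply div_le_div_of_nonneg_right _ (by positivity)
    have h4 : Nat.card {p : (Fin (k N) → G N) × G N |
        ¬ Near (walkDist (edge N p.1) 0 p.2) (k N * L N / (s * Real.exp 1)) ε} ≤
        Nat.card {p : (Fin (k N) → G N) × G N |
        ¬ Near (walkDist (edge N p.1) 0 p.2) (k N * L N / (s * Real.exp 1)) ε'} := by
      apply Nat.card_mono (Set.toFinite _)
      intro p hp hcon
      exact hp (near_mono (min_le_left _ _) hcon)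
    exact_mod_cast h4


theorem main {G : ℕ → Type u} [∀ N, AddCommGroup (G N)] [∀ N, Finite (G N)] {k : ℕ → ℕ}
    (hcard : Tendsto (fun N => Nat.card (G N)) atTop atTop)
    (hk : Tendsto k atTop atTop)
    (hklog : Tendsto (fun N => (k N : ℝ) / Real.log (Nat.card (G N))) atTop (𝓝 0))
    (hgen : ∃ c : ℝ, 0 < c ∧ ∀ᶠ N in atTop,
      c * (k N : ℝ) ≤ (k N : ℝ) - (AddGroup.rank (G N) : ℝ)) :
    Concentrates G k (fun _ z => dirEdge z) (fun N => dirValue (k N) (Nat.card (G N))) ∧
    Concentrates G k (fun _ z => undirEdge z) (fun N => undirValue (k N) (Nat.card (G N))) := by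
  constructor
  · have h := concentrates_of (G := G) (k := k) (s := 1) (fun k => ballD k)
      (fun _ z => dirEdge z) (fun N z => linked_dir z)
      (fun k m m' h w hw => by
        rw [mem_ballD] at hw ⊢
        exact ⟨hw.1.trans h, hw.2⟩)
      (fun k R => by
        rw [card_ballD, one_pow, one_mul]
        have : R.choose k ≤ (R + k).choose k := Nat.choose_le_choose k (by omega)
        exact_mod_cast this)
      (fun k R => by rw [card_ballD, one_pow, one_mul])
      (fun k R g w hw r => ballD_add w hw r)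
      (fun k R w hw => (mem_ballD.mp hw).1)
      le_rfl one_le_two hcard hk hklog hgen
    simpa [dirValue] using h
  · have h := concentrates_of (G := G) (k := k) (s := 2) (fun k => ballU k)
      (fun _ z => undirEdge z) (fun N z => linked_undir z)
      (fun k m m' h w hw => by
        rw [mem_ballU] at hw ⊢
        exact hw.trans h)
      (fun k R => by exact_mod_cast le_card_ballU k R)
      (fun k R => by exact_mod_cast card_ballU_le k R)
      (fun k R g w hw r => ballU_add w hw r)
      (fun k R w hw => mem_ballU.mp hw)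
      one_le_two le_rfl hcard hk hklog hgen
    simpa [undirValue] using h

end Pool.Agent.H90.CayleyMain
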